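import Pool.Agent.H43K.Ind
import Pool.Agent.R276.SI.Ess
import Pool.Agent.R276.SI.Fac

/-!
# Finite rank perturbations of singular integral operators: the exceptional couplings
-/

set_option autoImplicit false

open MeasureTheory AddCircle Set Filter Topology Metric
open scoped ENNReal NNReal
open Pool.Agent.Y283.TO Pool.Agent.R276.SI

namespace Pool.Agent.H43K

/-- the constant case -/
theorem const_case {X : Type} [NormedAddCommGroup X] [NormedSpace ℂ X] [CompleteSpace X]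
    (P F : X →L[ℂ] X) (hP : P * P = P) (α β : ℂ)
    (hF : FiniteDimensional ℂ (LinearMap.range (F : X →ₗ[ℂ] X))) :
    (∃ c : ℂ, (α • P + β • (1 - P)) + F = c • (1 : X →L[ℂ] X)) ∨
      HasHyp ((α • P + β • (1 - P)) + F) := by
  by_cases hs : ∃ c : ℂ, (α • P + β • (1 - P)) + F = c • (1 : X →L[ℂ] X)
  · exact Or.inl hs
  right
  push Not at hs
  obtain ⟨T, hT⟩ : ∃ T, T = (α • P + β • (1 - P)) + F := ⟨_, rfl⟩
  rw [← hT] at hs ⊢
  have hPv : ∀ v, P (P v) = P v := fun v => congrArg (fun S : X →L[ℂ] X => S v) hP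
  have hTv : ∀ v, T v = α • P v + β • (v - P v) + F v := by
    intro v
    rw [hT]
    rfl
  obtain ⟨z, x, hx, hxe⟩ := eig_of_quad T α β (by
    let R := LinearMap.range (F : X →ₗ[ℂ] X)
    let Bm : X →ₗ[ℂ] X := (((T - F - α • (1 : X →L[ℂ] X)) : X →L[ℂ] X) : X →ₗ[ℂ] X)
    have h1 : LinearMap.range ((((T - α • (1 : X →L[ℂ] X)) * (T - β • (1 : X →L[ℂ] X)) :
        X →L[ℂ] X)) : X →ₗ[ℂ] X) ≤ R.map Bm ⊔ R := by
      rintro _ ⟨v, rfl⟩
      have e : (((T - α • (1 : X →L[ℂ] X)) * (T - β • (1 : X →L[ℂ] X)) : X →L[ℂ] X)) v =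
          Bm (F v) + F (T v - β • v) := by
        change T (T v - β • v) - α • (T v - β • v) = (T (F v) - F (F v) - α • F v) + F (T v - β • v)
        have g1 : T v - β • v = (α - β) • P v + F v := by
          rw [hTv, smul_sub, sub_smul]
          abel
        have g2 : T ((α - β) • P v) = (α - β) • (α • P v) + F ((α - β) • P v) := by
          rw [map_smul, hTv, hPv, sub_self, smul_zero, add_zero, smul_add, map_smul]
        rw [g1, map_add, map_add, g2, smul_add]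
        rw [smul_comm (α - β) α (P v)]
        abel
      change (((T - α • (1 : X →L[ℂ] X)) * (T - β • (1 : X →L[ℂ] X)) : X →L[ℂ] X)) v ∈ _
      rw [e]
      exact Submodule.add_mem_sup (Submodule.mem_map_of_mem ⟨v, rfl⟩) ⟨_, rfl⟩
    have : FiniteDimensional ℂ R := hF
    exact Submodule.finiteDimensional_of_le h1) hs
  exact hyp_of_eig T hs z x hx hxe

theorem acc_range (f : CT) (hf : ¬ ∃ c : ℂ, f = c • (1 : CT)) :
    (range f).Nontrivial ∧ ∀ z ∈ range f, AccPt z (𝓟 (range f)) := by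
  have hnt : (range f).Nontrivial := by
    by_contra hn
    rw [not_nontrivial_iff] at hn
    apply hf
    refine ⟨f 0, ?_⟩
    ext t
    simpa using hn ⟨t, rfl⟩ ⟨0, rfl⟩
  refine ⟨hnt, ?_⟩
  have hr : range f = range (rl f) := by
    ext z
    constructor
    · rintro ⟨t, rfl⟩
      obtain ⟨x, -, rfl⟩ := exists_coe t
      exact ⟨x, rfl⟩
    · rintro ⟨x, rfl⟩
      exact ⟨_, rfl⟩
  have hpre : IsPreconnected (range f) := by
    rw [hr]
    exact isPreconnected_range (rl_continuous f)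
  exact hpre.preperfect_of_nontrivial hnt

/-- the three cases: nonzero index, constant coefficients, log-integrable resolvent -/
theorem tri {X : Type} [NormedAddCommGroup X] [NormedSpace ℂ X] [CompleteSpace X]
    {e : ℤ → X} {ε₀ : X →L[ℂ] ℂ} {M : CT → (X →L[ℂ] X)} {P : X →L[ℂ] X} (h : SIO e ε₀ M P)
    (a b : CT) (L q : ℝ) (hL : 0 < L) (hq : 1 / 2 ≤ q) (hq2 : 2 * q ^ 2 < 1)
    (ha : HD (rl a) L q) (hb : HD (rl b) L q) :
    (∃ (z : ℂ) (k : ℤ) (c d : ℕ → ℂ) (w : CT), k ≠ 0 ∧ (Summable fun n => ‖c n‖) ∧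
      (Summable fun n => ‖d n‖) ∧ a - algebraMap ℂ CT z =
        (b - algebraMap ℂ CT z) * fourier k * cexp (ps c) * cexp (psm d) ∧
      (b - algebraMap ℂ CT z) * w = 1) ∨
    (∃ α β : ℂ, (M a * P + M b * (1 - P) : X →L[ℂ] X) = α • P + β • (1 - P)) ∨
    ∃ R : ℝ, volume (spectrum ℂ (M a * P + M b * (1 - P) : X →L[ℂ] X) ∩ ball 0 R) = 0 ∧
      IntegrableOn (fun z : ℂ => Real.posLog ‖resolvent (M a * P + M b * (1 - P) : X →L[ℂ] X) z‖)
        (ball 0 R) ∧
      (Pool.Agent.Y271.CO.weyl (M a * P + M b * (1 - P) : X →L[ℂ] X) ∩ ball 0 R).Nonempty ∧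
      (Pool.Agent.Y271.CO.weyl (M a * P + M b * (1 - P) : X →L[ℂ] X)).Nontrivial := by
  have hq0 : 0 < q := by linarith
  obtain ⟨K, hK, hbd⟩ := h.bound
  obtain ⟨R, hR⟩ : ∃ R : ℝ, R = ‖a‖ + ‖b‖ + 1 := ⟨_, rfl⟩
  obtain ⟨C, hC, hfac⟩ := Fac.main a b L q hL hq hq2 ha hb R
  obtain ⟨D, hD⟩ : ∃ D : ℝ, D = Real.posLog (K ^ 3 * (‖P‖ + ‖(1 - P : X →L[ℂ] X)‖)) := ⟨_, rfl⟩
  have hD0 : 0 ≤ D := hD ▸ Real.posLog_nonneg
  obtain ⟨A, hA⟩ : ∃ A, A = (M a * P + M b * (1 - P) : X →L[ℂ] X) := ⟨_, rfl⟩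
  rw [← hA]
  by_cases hind : ∃ (z : ℂ) (k : ℤ) (c d : ℕ → ℂ) (w : CT), k ≠ 0 ∧ (Summable fun n => ‖c n‖) ∧
      (Summable fun n => ‖d n‖) ∧ a - algebraMap ℂ CT z =
        (b - algebraMap ℂ CT z) * fourier k * cexp (ps c) * cexp (psm d) ∧
      (b - algebraMap ℂ CT z) * w = 1
  · exact Or.inl hind
  right
  have key : ∀ z : ℂ, ‖z‖ ≤ R → (∀ t, a t ≠ z) → (∀ t, b t ≠ z) → z ∈ resolventSet ℂ A ∧
      ENNReal.ofReal (Real.posLog ‖resolvent A z‖) ≤
        ENNReal.ofReal D + 2 * (ENNReal.ofReal C * (HH a L q z + HH b L q z)) := by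
    intro z hzR hza hzb
    obtain ⟨k, c, d, w, hc, hd, h1, h2, h3⟩ := hfac z hzR hza hzb
    have hk : k = 0 := by
      by_contra hk
      exact hind ⟨z, k, c, d, w, hk, hc, hd, h1, h2⟩
    rw [hk] at h1
    obtain ⟨g1, g2⟩ := Fin.inv Alg.main h K hK hbd a b z c d w hc hd h1 h2
    rw [← hA] at g1 g2
    refine ⟨g1, ?_⟩
    have hs : 0 ≤ ‖ps c‖ + ‖psm d‖ := by positivity
    have g3 : Real.posLog ‖resolvent A z‖ ≤
        D + 2 * (‖ps c‖ + ‖psm d‖ + Real.posLog ‖w‖) := by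
      refine (Real.posLog_le_posLog (norm_nonneg _) g2).trans ?_
      refine Real.posLog_mul.trans ?_
      rw [← hD]
      refine add_le_add le_rfl (Real.posLog_mul.trans ?_)
      have g4 : Real.posLog (Real.exp (2 * (‖ps c‖ + ‖psm d‖))) =
          2 * (‖ps c‖ + ‖psm d‖) := by
        rw [Real.posLog, Real.log_exp]
        exact max_eq_right (by positivity)
      rw [g4]
      have g5 : 0 ≤ Real.posLog ‖w‖ := Real.posLog_nonneg
      linarith
    refine (ENNReal.ofReal_le_ofReal g3).trans ?_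
    have g6 : 0 ≤ ‖ps c‖ + ‖psm d‖ + Real.posLog ‖w‖ := by
      have g5 : 0 ≤ Real.posLog ‖w‖ := Real.posLog_nonneg
      positivity
    rw [ENNReal.ofReal_add hD0 (by positivity), ENNReal.ofReal_mul (by norm_num)]
    refine add_le_add le_rfl ?_
    rw [ENNReal.ofReal_ofNat]
    exact mul_le_mul' le_rfl h3
  by_cases hconst : (∃ c : ℂ, a = c • (1 : CT)) ∧ ∃ c : ℂ, b = c • (1 : CT)
  · obtain ⟨⟨α, hα⟩, β, hβ⟩ := hconst
    refine Or.inl ⟨α, β, ?_⟩
    rw [hA, hα, hβ, h.smul, h.smul, h.one, smul_mul_assoc, smul_mul_assoc, one_mul, one_mul]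
  right
  have hvola := volume_range a L q hL hq0 hq2 ha
  have hvolb := volume_range b L q hL hq0 hq2 hb
  have hvol : volume (range a ∪ range b) = 0 := measure_union_null hvola hvolb
  have hsr : spectrum ℂ A ∩ ball 0 R ⊆ range a ∪ range b := by
    rintro z ⟨hz, hzR⟩
    by_contra hc
    rw [mem_union, not_or] at hc
    exact hz (key z (mem_ball_zero_iff.1 hzR).le (fun t ht => hc.1 ⟨t, ht⟩)
      (fun t ht => hc.2 ⟨t, ht⟩)).1
  have hsa : range a ⊆ spectrum ℂ A ∩ ball 0 R := by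
    rintro _ ⟨t, rfl⟩
    refine ⟨fun hz => ?_, ?_⟩
    · rw [hA] at hz
      exact (Ess.main X e ε₀ M P h a b (a t) hz).1 t rfl
    · rw [mem_ball_zero_iff, hR]
      have := a.norm_coe_le_norm t
      have := norm_nonneg b
      linarith
  have hsb : range b ⊆ spectrum ℂ A ∩ ball 0 R := by
    rintro _ ⟨t, rfl⟩
    refine ⟨fun hz => ?_, ?_⟩
    · rw [hA] at hz
      exact (Ess.main X e ε₀ M P h a b (b t) hz).2 t rfl
    · rw [mem_ball_zero_iff, hR]
      have := b.norm_coe_le_norm t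
      have := norm_nonneg a
      linarith
  have hS0 : volume (spectrum ℂ A ∩ ball 0 R) = 0 := measure_mono_null hsr hvol
  obtain ⟨f, hfS, hfc⟩ : ∃ f : CT, range f ⊆ spectrum ℂ A ∩ ball 0 R ∧
      ¬ ∃ c : ℂ, f = c • (1 : CT) := by
    by_cases h1 : ∃ c : ℂ, a = c • (1 : CT)
    · exact ⟨b, hsb, fun h2 => hconst ⟨h1, h2⟩⟩
    · exact ⟨a, hsa, h1⟩
  obtain ⟨hnt, hacc⟩ := acc_range f hfc
  have hweyl : range f ⊆ Pool.Agent.Y271.CO.weyl A ∩ ball 0 R := by
    intro z hz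
    exact ⟨Pool.Agent.Y271.CO.acc_weyl A isOpen_ball hS0 (hfS hz).2
      ((hacc z hz).mono (principal_mono.2 (hfS.trans inter_subset_left))), (hfS hz).2⟩
  have hI : IntegrableOn (fun z : ℂ => Real.posLog ‖resolvent A z‖) (ball 0 R) := by
    have hmeas : StronglyMeasurable fun z : ℂ => resolvent A z :=
      Pool.Agent.W610.HY.Fin.hMEAS (X →L[ℂ] X) A
    refine ⟨(Real.continuous_posLog.comp_stronglyMeasurable hmeas.norm).aestronglyMeasurable, ?_⟩
    rw [hasFiniteIntegral_iff_ofReal (ae_of_all _ fun z => Real.posLog_nonneg)]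
    have h1 : ∀ᵐ z ∂((volume : Measure ℂ).restrict (ball 0 R)),
        ENNReal.ofReal (Real.posLog ‖resolvent A z‖) ≤
          ENNReal.ofReal D + 2 * (ENNReal.ofReal C * (HH a L q z + HH b L q z)) := by
      have h2 : ∀ᵐ z ∂((volume : Measure ℂ).restrict (ball 0 R)), z ∉ range a ∪ range b := by
        rw [ae_iff]
        simp only [not_not]
        exact le_antisymm ((Measure.restrict_apply_le _ _).trans hvol.le) bot_le
      filter_upwards [h2, ae_restrict_mem measurableSet_ball] with z hz1 hz2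
      rw [mem_union, not_or] at hz1
      exact (key z (mem_ball_zero_iff.1 hz2).le (fun t ht => hz1.1 ⟨t, ht⟩)
        (fun t ht => hz1.2 ⟨t, ht⟩)).2
    refine (lintegral_mono_ae h1).trans_lt ?_
    rw [lintegral_add_left measurable_const, lintegral_const, Measure.restrict_apply_univ,
      lintegral_const_mul' _ _ (by norm_num), lintegral_const_mul' _ _ ENNReal.ofReal_ne_top,
      lintegral_add_left (measurable_HH a L q)]
    refine ENNReal.add_lt_top.2 ⟨ENNReal.mul_lt_top ENNReal.ofReal_lt_top measure_ball_lt_top, ?_⟩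
    refine ENNReal.mul_lt_top (by norm_num) (ENNReal.mul_lt_top ENNReal.ofReal_lt_top
      (ENNReal.add_lt_top.2 ⟨?_, ?_⟩))
    · exact lt_top_iff_ne_top.mpr (lintegral_HH a L q hL hq0 hq2 R)
    · exact lt_top_iff_ne_top.mpr (lintegral_HH b L q hL hq0 hq2 R)
  exact ⟨R, hS0, hI, hnt.nonempty.mono hweyl, (hnt.mono hweyl).mono inter_subset_left⟩

theorem core {X : Type} [NormedAddCommGroup X] [NormedSpace ℂ X] [CompleteSpace X]
    {e : ℤ → X} {ε₀ : X →L[ℂ] ℂ} {M : CT → (X →L[ℂ] X)} {P : X →L[ℂ] X} (h : SIO e ε₀ M P)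
    (a b : CT) (L q : ℝ) (hL : 0 < L) (hq : 1 / 2 ≤ q) (hq2 : 2 * q ^ 2 < 1)
    (ha : HD (rl a) L q) (hb : HD (rl b) L q) (F : X →L[ℂ] X)
    (hF : FiniteDimensional ℂ (LinearMap.range (F : X →ₗ[ℂ] X))) :
    dimH {κ : ℂ | ¬ ((∃ c : ℂ, (M a * P + M b * (1 - P)) + κ • F = c • (1 : X →L[ℂ] X)) ∨
      HasHyp ((M a * P + M b * (1 - P)) + κ • F))} = 0 := by
  have htri := tri h a b L q hL hq hq2 ha hb
  obtain ⟨A, hA⟩ : ∃ A, A = (M a * P + M b * (1 - P) : X →L[ℂ] X) := ⟨_, rfl⟩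
  rw [← hA] at htri ⊢
  have hempty : (∀ κ : ℂ, (∃ c : ℂ, A + κ • F = c • (1 : X →L[ℂ] X)) ∨ HasHyp (A + κ • F)) →
      dimH {κ : ℂ | ¬ ((∃ c : ℂ, A + κ • F = c • (1 : X →L[ℂ] X)) ∨ HasHyp (A + κ • F))} = 0 := by
    intro hall
    have h0 : {κ : ℂ | ¬ ((∃ c : ℂ, A + κ • F = c • (1 : X →L[ℂ] X)) ∨ HasHyp (A + κ • F))} = ∅ :=
      Set.eq_empty_of_forall_notMem fun κ hκ => hκ (hall κ)
    rw [h0, dimH_empty]
  rcases htri with ⟨z, k, c, d, w, hk, hc, hd, hf, hw⟩ | ⟨α, β, hαβ⟩ | ⟨R, h0, hI, hw1, hw2⟩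
  · refine hempty fun κ => ?_
    by_cases hs : ∃ c : ℂ, A + κ • F = c • (1 : X →L[ℂ] X)
    · exact Or.inl hs
    right
    push Not at hs
    rcases index_pert h a b z k c d w hc hd hk hf hw (κ • F)
      (Pool.Agent.Y271.CO.range_smul_fin F hF κ) with ⟨x, hx, hxe⟩ | ⟨y, hy, hye⟩
    · rw [← hA] at hxe
      exact hyp_of_eig _ hs z x hx hxe
    · rw [← hA] at hye
      exact hyp_of_coeig _ hs z y hy hye
  · refine hempty fun κ => ?_
    rw [hαβ]
    exact const_case P (κ • F) (Alg.main X e ε₀ M P h).1 α β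
      (Pool.Agent.Y271.CO.range_smul_fin F hF κ)
  · have hfin := Pool.Agent.Y271.CO.main_weyl A F hF isOpen_ball h0 hI hw1 hw2
    refine le_antisymm ((dimH_mono ?_).trans hfin.le) zero_le
    intro κ hκ hh
    exact hκ (Or.inr hh)

end Pool.Agent.H43K
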