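import Pool.Agent.R276.SI.Fin
import Pool.Agent.R276.SI.Alg
import Pool.Agent.Y271.CO.Cor

/-!
# Finite rank perturbations of one-sided invertible operators and of singular integral operators
-/

set_option autoImplicit false

open MeasureTheory AddCircle Set Filter Topology Metric
open scoped ENNReal NNReal
open Pool.Agent.Y283.TO Pool.Agent.R276.SI

namespace Pool.Agent.H43K

/-- a finite rank perturbation of a surjective linear map with a kernel has a kernel -/
theorem ker_of_surj {V : Type*} [AddCommGroup V] [Module ℂ V] (B F : V →ₗ[ℂ] V)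
    (hB : Function.Surjective B) (hk : ∃ v, v ≠ 0 ∧ B v = 0)
    (hF : FiniteDimensional ℂ (LinearMap.range F)) : ∃ v, v ≠ 0 ∧ (B + F) v = 0 := by
  by_contra hcon
  push Not at hcon
  have hinj : ∀ v, (B + F) v = 0 → v = 0 := fun v hv => by_contra fun h => hcon v h hv
  obtain ⟨g, hg⟩ := B.exists_rightInverse_of_surjective (LinearMap.range_eq_top.2 hB)
  have hBg : ∀ u, B (g u) = u := fun u => LinearMap.congr_fun hg u
  have h1 : ∀ u, u + F (g u) = 0 → u = 0 := by
    intro u hu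
    have h2 : (B + F) (g u) = 0 := by rw [LinearMap.add_apply, hBg, hu]
    have h3 := hinj _ h2
    have h4 := hBg u
    rw [h3, map_zero] at h4
    exact h4.symm
  let T : LinearMap.range F →ₗ[ℂ] LinearMap.range F :=
    LinearMap.id + (F.rangeRestrict ∘ₗ g ∘ₗ (LinearMap.range F).subtype)
  have hTv : ∀ u : LinearMap.range F, ((T u : LinearMap.range F) : V) = (u : V) + F (g u) := fun u => rfl
  have hT : Function.Injective T := by
    rw [← LinearMap.ker_eq_bot, LinearMap.ker_eq_bot']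
    intro u hu
    have h2 : (u : V) + F (g u) = 0 := by
      rw [← hTv, hu]
      rfl
    exact Subtype.ext (h1 _ h2)
  have hTs : Function.Surjective T := LinearMap.injective_iff_surjective.1 hT
  obtain ⟨v, hv, hBv⟩ := hk
  obtain ⟨u, hu⟩ := hTs ⟨F v, LinearMap.mem_range_self _ _⟩
  have h5 : (u : V) + F (g u) = F v := by
    rw [← hTv, hu]
  have h6 : (B + F) (v - g u) = 0 := by
    rw [map_sub, LinearMap.add_apply, LinearMap.add_apply, hBv, hBg, zero_add, h5, sub_self]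
  have h7 := sub_eq_zero.1 (hinj _ h6)
  have h8 : (u : V) = 0 := by rw [← hBg u, ← h7, hBv]
  apply hv
  rw [h7, h8, map_zero]

section

variable {X : Type} [NormedAddCommGroup X] [NormedSpace ℂ X]

theorem eig_of_right (A J F : X →L[ℂ] X) (z : ℂ) (hJ : (A - algebraMap ℂ (X →L[ℂ] X) z) * J = 1)
    (hk : ∃ x : X, x ≠ 0 ∧ A x = z • x)
    (hF : FiniteDimensional ℂ (LinearMap.range (F : X →ₗ[ℂ] X))) :
    ∃ x : X, x ≠ 0 ∧ (A + F) x = z • x := by
  obtain ⟨x, hx, hAx⟩ := hk
  have e1 : ∀ v, (A - algebraMap ℂ (X →L[ℂ] X) z) v = A v - z • v := by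
    intro v
    simp [Algebra.algebraMap_eq_smul_one]
  obtain ⟨v, hv, h⟩ := ker_of_surj ((A - algebraMap ℂ (X →L[ℂ] X) z : X →L[ℂ] X) : X →ₗ[ℂ] X)
    (F : X →ₗ[ℂ] X) (fun u => ⟨J u, congrArg (fun S : X →L[ℂ] X => S u) hJ⟩)
    ⟨x, hx, by
      change (A - algebraMap ℂ (X →L[ℂ] X) z) x = 0
      rw [e1, hAx, sub_self]⟩ hF
  refine ⟨v, hv, ?_⟩
  change (A - algebraMap ℂ (X →L[ℂ] X) z) v + F v = 0 at h
  rw [e1] at h
  change A v + F v = z • v
  rw [← sub_eq_zero]
  rw [← h]
  abel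

theorem coeig_of_left (A J F : X →L[ℂ] X) (z : ℂ) (hJ : J * (A - algebraMap ℂ (X →L[ℂ] X) z) = 1)
    (hk : ∃ y : X →L[ℂ] ℂ, y ≠ 0 ∧ y.comp A = z • y)
    (hF : FiniteDimensional ℂ (LinearMap.range (F : X →ₗ[ℂ] X))) :
    ∃ y : X →L[ℂ] ℂ, y ≠ 0 ∧ y.comp (A + F) = z • y := by
  obtain ⟨y, hy, hAy⟩ := hk
  let D : (X →L[ℂ] X) → (X →L[ℂ] ℂ) →ₗ[ℂ] (X →L[ℂ] ℂ) := fun B =>
    { toFun := fun φ => φ.comp B
      map_add' := fun φ ψ => by ext x; rfl
      map_smul' := fun c φ => by ext x; rfl }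
  have hD : ∀ B φ, D B φ = φ.comp B := fun B φ => rfl
  have e1 : ∀ φ : X →L[ℂ] ℂ, φ.comp (A - algebraMap ℂ (X →L[ℂ] X) z) = φ.comp A - z • φ := by
    intro φ
    ext v
    simp [Algebra.algebraMap_eq_smul_one]
  have hfin : FiniteDimensional ℂ (LinearMap.range (D F)) := by
    obtain ⟨n, G, E, rfl⟩ := Pool.Agent.Y271.CO.exists_FJ F hF
    have h1 : LinearMap.range (D (E.comp G)) ≤ Submodule.span ℂ (Set.range fun i : Fin n =>
        (ContinuousLinearMap.proj (R := ℂ) (φ := fun _ : Fin n => ℂ) i).comp G) := by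
      rintro _ ⟨φ, rfl⟩
      have h2 : D (E.comp G) φ = ∑ i : Fin n, φ (E (Pi.single i 1)) •
          (ContinuousLinearMap.proj (R := ℂ) (φ := fun _ : Fin n => ℂ) i).comp G := by
        ext v
        have h3 : G v = ∑ i : Fin n, (G v i) • (Pi.single i (1 : ℂ) : Fin n → ℂ) := by
          ext j
          simp [Finset.sum_apply, Pi.single_apply]
        have h4 : φ (E (G v)) = ∑ i : Fin n, G v i * φ (E (Pi.single i 1)) := by
          conv_lhs => rw [h3]
          rw [map_sum, map_sum]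
          refine Finset.sum_congr rfl fun i _ => ?_
          rw [map_smul, map_smul, smul_eq_mul]
        change φ (E (G v)) = _
        rw [h4]
        simp only [ContinuousLinearMap.sum_apply, ContinuousLinearMap.smul_apply,
          ContinuousLinearMap.comp_apply, ContinuousLinearMap.proj_apply, smul_eq_mul]
        exact Finset.sum_congr rfl fun i _ => mul_comm _ _
      rw [h2]
      exact Submodule.sum_mem _ fun i _ => Submodule.smul_mem _ _ (Submodule.subset_span ⟨i, rfl⟩)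
    have : FiniteDimensional ℂ (Submodule.span ℂ (Set.range fun i : Fin n =>
        (ContinuousLinearMap.proj (R := ℂ) (φ := fun _ : Fin n => ℂ) i).comp G)) :=
      FiniteDimensional.span_of_finite ℂ (Set.finite_range _)
    exact Submodule.finiteDimensional_of_le h1
  obtain ⟨v, hv, h⟩ := ker_of_surj (D (A - algebraMap ℂ (X →L[ℂ] X) z)) (D F)
    (fun φ => ⟨φ.comp J, by
      rw [hD]
      ext v
      exact congrArg (fun S : X →L[ℂ] X => φ (S v)) hJ⟩)
    ⟨y, hy, by rw [hD, e1, hAy, sub_self]⟩ hfin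
  refine ⟨v, hv, ?_⟩
  rw [LinearMap.add_apply, hD, hD, e1] at h
  rw [← sub_eq_zero, ← h]
  ext w
  simp
  ring

/-- left inverse -/
theorem left_inv {𝒜 : Type} [Ring 𝒜] (P U U' V V' B W : 𝒜)
    (hU : P * U * P = U * P) (hV' : P * V' * P = P * V') (uu' : U' * U = 1) (vv : V * V' = 1)
    (vv' : V' * V = 1) (wb : W * B = 1) (uv : V * U = U * V) :
    ((U' * P + V * (1 - P)) * V' * W) * (B * (U * V * P + (1 - P))) = 1 := by
  have q1 : P * V' * (1 - P) = 0 := by rw [mul_sub, mul_one, hV', sub_self]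
  have q2 : (1 - P) * U * P = 0 := by rw [sub_mul, sub_mul, one_mul, hU, sub_self]
  have q3 : (1 - P) * V' * (1 - P) = V' * (1 - P) := by
    have e : (1 - P) * V' * (1 - P) = V' * (1 - P) - P * V' * (1 - P) := by noncomm_ring
    rw [e, q1, sub_zero]
  calc ((U' * P + V * (1 - P)) * V' * W) * (B * (U * V * P + (1 - P)))
      = (U' * P + V * (1 - P)) * (V' * (W * B) * (U * V * P + (1 - P))) := by
        simp only [mul_assoc]
    _ = (U' * P + V * (1 - P)) * ((V' * V) * U * P + V' * (1 - P)) := by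
        rw [wb, mul_one, mul_add, ← uv]
        simp only [mul_assoc]
    _ = (U' * P + V * (1 - P)) * (U * P + V' * (1 - P)) := by rw [vv', one_mul]
    _ = U' * (P * U * P) + U' * (P * V' * (1 - P)) + V * ((1 - P) * U * P) +
        V * ((1 - P) * V' * (1 - P)) := by noncomm_ring
    _ = 1 := by
        rw [hU, q1, q2, q3, ← mul_assoc, uu', ← mul_assoc, vv]
        noncomm_ring

/-- right inverse -/
theorem right_inv {𝒜 : Type} [Ring 𝒜] (P U U' V V' B W : 𝒜)
    (hU' : P * U' * P = U' * P) (hV : P * V * P = P * V) (uu : U * U' = 1) (vv : V * V' = 1)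
    (bw : B * W = 1) (uv : V * U = U * V) :
    (B * (U * V * P + (1 - P))) * ((U' * P + V * (1 - P)) * V' * W) = 1 := by
  have r1 : P * V * (1 - P) = 0 := by rw [mul_sub, mul_one, hV, sub_self]
  have r2 : (1 - P) * U' * P = 0 := by rw [sub_mul, sub_mul, one_mul, hU', sub_self]
  have r3 : (1 - P) * V * (1 - P) = V * (1 - P) := by
    have e : (1 - P) * V * (1 - P) = V * (1 - P) - P * V * (1 - P) := by noncomm_ring
    rw [e, r1, sub_zero]
  calc (B * (U * V * P + (1 - P))) * ((U' * P + V * (1 - P)) * V' * W)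
      = B * (U * V * (P * U' * P) + U * V * P * V * (1 - P) + (1 - P) * U' * P +
        (1 - P) * V * (1 - P)) * V' * W := by noncomm_ring
    _ = B * (U * V * (U' * P) + U * V * (P * V * (1 - P)) + 0 + V * (1 - P)) * V' * W := by
        rw [hU', r2, r3]
        simp only [mul_assoc]
    _ = B * (V * (U * U') * P + V * (1 - P)) * V' * W := by
        rw [r1, mul_zero, add_zero, add_zero, ← uv]
        simp only [mul_assoc]
    _ = B * (V * V') * W := by
        rw [uu, mul_one]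
        noncomm_ring
    _ = 1 := by rw [vv, mul_one, bw]

variable {e : ℤ → X} {ε₀ : X →L[ℂ] ℂ} {M : CT → (X →L[ℂ] X)} {P : X →L[ℂ] X}

/-- analytic symbols -/
theorem ana (h : SIO e ε₀ M P) (k : ℤ) (hk : 0 ≤ k) (c : ℕ → ℂ) (hc : Summable fun n => ‖c n‖) :
    P * M (fourier k * cexp (ps c)) * P = M (fourier k * cexp (ps c)) * P := by
  obtain ⟨hPP, h2, -, -⟩ := Alg.main X e ε₀ M P h
  have h3 := (h2 c hc).1
  have h4 : P * M (fourier k) * P = M (fourier k) * P := by
    refine ContinuousLinearMap.ext_on h.dense ?_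
    rintro _ ⟨n, rfl⟩
    change P (M (fourier k) (P (e n))) = M (fourier k) (P (e n))
    rw [h.proj]
    split_ifs with hn
    · rw [h.shift, h.proj, if_pos (by omega)]
    · rw [map_zero, map_zero]
  rw [h.mul]
  calc P * (M (fourier k) * M (cexp (ps c))) * P = P * M (fourier k) * (M (cexp (ps c)) * P) := by
        simp only [mul_assoc]
    _ = P * M (fourier k) * (P * M (cexp (ps c)) * P) := by rw [h3]
    _ = (P * M (fourier k) * P) * (M (cexp (ps c)) * P) := by simp only [mul_assoc]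
    _ = M (fourier k) * P * (M (cexp (ps c)) * P) := by rw [h4]
    _ = M (fourier k) * (P * M (cexp (ps c)) * P) := by simp only [mul_assoc]
    _ = M (fourier k) * M (cexp (ps c)) * P := by rw [h3, mul_assoc]

theorem fourier_neg_mul (k : ℤ) : (fourier k : CT) * fourier (-k) = 1 := by
  ext t
  have := fourier_add (m := k) (n := -k) (x := t)
  rw [add_neg_cancel] at this
  simp only [ContinuousMap.mul_apply, ContinuousMap.one_apply]
  rw [← this, fourier_zero]

theorem exp_inv (k : ℤ) (f : CT) : (fourier k * cexp f) * (fourier (-k) * cexp (-f)) = 1 := by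
  calc (fourier k * cexp f) * (fourier (-k) * cexp (-f))
      = (fourier k * fourier (-k)) * (cexp f * cexp (-f)) := by ring
    _ = 1 := by rw [fourier_neg_mul, Fin.cexp_neg_mul, one_mul]

/-- one-sided inverses -/
theorem one_sided (h : SIO e ε₀ M P) (a b : CT) (z : ℂ) (k : ℤ) (c d : ℕ → ℂ) (w : CT)
    (hc : Summable fun n => ‖c n‖) (hd : Summable fun n => ‖d n‖)
    (hf : a - algebraMap ℂ CT z =
      (b - algebraMap ℂ CT z) * fourier k * cexp (ps c) * cexp (psm d))
    (hw : (b - algebraMap ℂ CT z) * w = 1) :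
    (0 ≤ k → ∃ J : X →L[ℂ] X,
      J * ((M a * P + M b * (1 - P)) - algebraMap ℂ (X →L[ℂ] X) z) = 1) ∧
    (k ≤ 0 → ∃ J : X →L[ℂ] X,
      ((M a * P + M b * (1 - P)) - algebraMap ℂ (X →L[ℂ] X) z) * J = 1) := by
  obtain ⟨hPP, h2, h3, h4⟩ := Alg.main X e ε₀ M P h
  obtain ⟨U, hU⟩ : ∃ U, U = M (fourier k * cexp (ps c)) := ⟨_, rfl⟩
  obtain ⟨U', hU'⟩ : ∃ U', U' = M (fourier (-k) * cexp (-ps c)) := ⟨_, rfl⟩
  obtain ⟨V, hV⟩ : ∃ V, V = M (cexp (psm d)) := ⟨_, rfl⟩
  obtain ⟨V', hV'⟩ : ∃ V', V' = M (cexp (-psm d)) := ⟨_, rfl⟩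
  obtain ⟨B, hB⟩ : ∃ B, B = M (b - algebraMap ℂ CT z) := ⟨_, rfl⟩
  obtain ⟨W, hW⟩ : ∃ W, W = M w := ⟨_, rfl⟩
  have k3 := (h2 d hd).2
  have k4 := (h2 (fun n => -d n) (by simpa using hd)).2
  rw [← Fin.psm_neg d hd] at k4
  rw [← hV] at k3
  rw [← hV'] at k4
  have uu : U * U' = 1 := by rw [hU, hU', ← h.mul, exp_inv, h.one]
  have uu' : U' * U = 1 := by rw [hU, hU', ← h.mul, mul_comm, exp_inv, h.one]
  have vv : V * V' = 1 := by rw [hV, hV', ← h.mul, Fin.cexp_neg_mul, h.one]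
  have vv' : V' * V = 1 := by rw [hV, hV', ← h.mul, mul_comm, Fin.cexp_neg_mul, h.one]
  have bw : B * W = 1 := by rw [hB, hW, ← h.mul, hw, h.one]
  have wb : W * B = 1 := by rw [hB, hW, ← h.mul, mul_comm, hw, h.one]
  have uv : V * U = U * V := by rw [hU, hV, ← h.mul, ← h.mul, mul_comm]
  have hA : B * (U * V * P + (1 - P)) =
      (M a * P + M b * (1 - P)) - algebraMap ℂ (X →L[ℂ] X) z := by
    rw [← Fin.M_sub_z h, hf, hU, hV, hB, ← h.mul, mul_add, ← mul_assoc, ← h.mul]
    congr 3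
    ring
  rw [← hA]
  constructor
  · intro hk
    exact ⟨_, left_inv P U U' V V' B W (by rw [hU]; exact ana h k hk c hc) k4 uu' vv vv' wb uv⟩
  · intro hk
    refine ⟨_, right_inv P U U' V V' B W ?_ k3 uu vv bw uv⟩
    have h5 := ana h (-k) (by omega) (fun n => -c n) (by simpa using hc)
    rw [← ps_neg c hc] at h5
    rw [hU']
    exact h5

/-- for a nonzero index every finite rank perturbation has an eigenvector or an eigenfunctional -/
theorem index_pert (h : SIO e ε₀ M P) (a b : CT) (z : ℂ) (k : ℤ) (c d : ℕ → ℂ) (w : CT)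
    (hc : Summable fun n => ‖c n‖) (hd : Summable fun n => ‖d n‖) (hk : k ≠ 0)
    (hf : a - algebraMap ℂ CT z =
      (b - algebraMap ℂ CT z) * fourier k * cexp (ps c) * cexp (psm d))
    (hw : (b - algebraMap ℂ CT z) * w = 1) (F : X →L[ℂ] X)
    (hF : FiniteDimensional ℂ (LinearMap.range (F : X →ₗ[ℂ] X))) :
    (∃ x : X, x ≠ 0 ∧ ((M a * P + M b * (1 - P)) + F) x = z • x) ∨
      ∃ y : X →L[ℂ] ℂ, y ≠ 0 ∧ y.comp ((M a * P + M b * (1 - P)) + F) = z • y := by
  obtain ⟨h1, h2⟩ := one_sided h a b z k c d w hc hd hf hw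
  rcases lt_or_gt_of_ne hk with hk | hk
  · obtain ⟨J, hJ⟩ := h2 hk.le
    exact Or.inl (eig_of_right _ J F z hJ (Fin.eig Alg.main h a b z k c d hc hd hk hf) hF)
  · obtain ⟨J, hJ⟩ := h1 hk.le
    exact Or.inr (coeig_of_left _ J F z hJ (Fin.coeig Alg.main h a b z k c d w hc hd hk hf hw) hF)

/-- an operator with a quadratic polynomial of finite rank has an eigenvector or is scalar -/
theorem eig_of_quad (T : X →L[ℂ] X) (α β : ℂ)
    (hG : FiniteDimensional ℂ (LinearMap.range (((T - α • (1 : X →L[ℂ] X)) * (T - β • (1 : X →L[ℂ] X)) :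
      X →L[ℂ] X) : X →ₗ[ℂ] X))) (hT : ∀ c : ℂ, T ≠ c • (1 : X →L[ℂ] X)) :
    ∃ (z : ℂ) (x : X), x ≠ 0 ∧ T x = z • x := by
  obtain ⟨G, hGd⟩ : ∃ G : X →L[ℂ] X, G = (T - α • (1 : X →L[ℂ] X)) * (T - β • (1 : X →L[ℂ] X)) := ⟨_, rfl⟩
  rw [← hGd] at hG
  have hGv : ∀ x, G x = T (T x - β • x) - α • (T x - β • x) := by
    intro x
    rw [hGd]
    simp
  by_cases h0 : G = 0
  · obtain ⟨x, hx⟩ : ∃ x, T x - β • x ≠ 0 := by
      by_contra hcon
      push Not at hcon
      apply hT β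
      ext x
      have := hcon x
      rw [sub_eq_zero] at this
      rw [this]
      simp
    refine ⟨α, T x - β • x, hx, ?_⟩
    have h1 := hGv x
    rw [h0] at h1
    exact (sub_eq_zero.1 h1.symm)
  · have hcomm : ∀ x, T (G x) = G (T x) := by
      intro x
      rw [hGv, hGv]
      simp only [map_sub, map_smul]
    let R := LinearMap.range (G : X →ₗ[ℂ] X)
    have hinv : ∀ x ∈ R, (T : X →ₗ[ℂ] X) x ∈ R := by
      rintro _ ⟨x, rfl⟩
      exact ⟨T x, (hcomm x).symm⟩
    have hnt : Nontrivial R := by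
      obtain ⟨x, hx⟩ : ∃ x, G x ≠ 0 := by
        by_contra hcon
        push Not at hcon
        exact h0 (ContinuousLinearMap.ext hcon)
      exact ⟨⟨⟨G x, ⟨x, rfl⟩⟩, 0, fun hh => hx (congrArg Subtype.val hh)⟩⟩
    obtain ⟨z, hz⟩ := Module.End.exists_eigenvalue ((T : X →ₗ[ℂ] X).restrict hinv)
    obtain ⟨v, hv⟩ := hz.exists_hasEigenvector
    refine ⟨z, (v : X), fun hh => hv.2 (Subtype.ext hh), ?_⟩
    have := congrArg Subtype.val hv.apply_eq_smul
    exact this

end

end Pool.Agent.H43K
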