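import Pool.Agent.H43K.Ind

/-!
# Norm limits of finite rank operators and one-sided invertible operators
-/

set_option autoImplicit false

open MeasureTheory AddCircle Set Filter Topology Metric
open scoped ENNReal NNReal
open Pool.Agent.Y283.TO Pool.Agent.R276.SI

namespace Pool.Agent.H43K

variable {X : Type} [NormedAddCommGroup X] [NormedSpace ℂ X] [CompleteSpace X]

theorem small_right (B J G : X →L[ℂ] X) (hJ : B * J = 1) (hG : ‖G‖ * ‖J‖ < 1)
    (hk : ∃ x : X, x ≠ 0 ∧ B x = 0) :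
    (∃ J' : X →L[ℂ] X, (B + G) * J' = 1) ∧ ∃ x : X, x ≠ 0 ∧ (B + G) x = 0 := by
  have h1 : ‖-(G * J)‖ < 1 := by
    rw [norm_neg]
    exact (norm_mul_le _ _).trans_lt hG
  obtain ⟨u, hu⟩ : ∃ u : (X →L[ℂ] X)ˣ, (u : X →L[ℂ] X) = 1 + G * J :=
    ⟨Units.oneSub (-(G * J)) h1, by rw [Units.val_oneSub, sub_neg_eq_add]⟩
  obtain ⟨v, hv⟩ : ∃ v : X →L[ℂ] X, v = ((u⁻¹ : (X →L[ℂ] X)ˣ) : X →L[ℂ] X) := ⟨_, rfl⟩
  have huv : (1 + G * J) * v = 1 := by rw [← hu, hv, Units.mul_inv]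
  have hinv : (B + G) * (J * v) = 1 := by
    rw [← mul_assoc, add_mul, hJ, huv]
  obtain ⟨x, hx, hBx⟩ := hk
  refine ⟨⟨J * v, hinv⟩, x - (J * v) (G x), ?_, ?_⟩
  · intro h0
    have h2 : x = J (v (G x)) := sub_eq_zero.1 h0
    have h3 : B (J (v (G x))) = v (G x) := congrArg (fun S : X →L[ℂ] X => S (v (G x))) hJ
    rw [← h2, hBx] at h3
    rw [← h3, map_zero] at h2
    exact hx h2
  · rw [map_sub]
    have h4 : (B + G) ((J * v) (G x)) = G x := congrArg (fun S : X →L[ℂ] X => S (G x)) hinv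
    rw [h4]
    change B x + G x - G x = 0
    rw [hBx, zero_add, sub_self]

theorem small_left (B J G : X →L[ℂ] X) (hJ : J * B = 1) (hG : ‖J‖ * ‖G‖ < 1)
    (hk : ∃ y : X →L[ℂ] ℂ, y ≠ 0 ∧ y.comp B = 0) :
    (∃ J' : X →L[ℂ] X, J' * (B + G) = 1) ∧ ∃ y : X →L[ℂ] ℂ, y ≠ 0 ∧ y.comp (B + G) = 0 := by
  have h1 : ‖-(J * G)‖ < 1 := by
    rw [norm_neg]
    exact (norm_mul_le _ _).trans_lt hG
  obtain ⟨u, hu⟩ : ∃ u : (X →L[ℂ] X)ˣ, (u : X →L[ℂ] X) = 1 + J * G :=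
    ⟨Units.oneSub (-(J * G)) h1, by rw [Units.val_oneSub, sub_neg_eq_add]⟩
  obtain ⟨v, hv⟩ : ∃ v : X →L[ℂ] X, v = ((u⁻¹ : (X →L[ℂ] X)ˣ) : X →L[ℂ] X) := ⟨_, rfl⟩
  have huv : v * (1 + J * G) = 1 := by rw [← hu, hv, Units.inv_mul]
  have hinv : (v * J) * (B + G) = 1 := by
    rw [mul_assoc, mul_add, hJ, huv]
  obtain ⟨y, hy, hBy⟩ := hk
  have hBy' : ∀ x, y (B x) = 0 := fun x => congrArg (fun S : X →L[ℂ] ℂ => S x) hBy
  refine ⟨⟨v * J, hinv⟩, y - (y.comp G).comp (v * J), ?_, ?_⟩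
  · intro h0
    have h2 : ∀ x, y x = y (G (v (J x))) := fun x =>
      congrArg (fun S : X →L[ℂ] ℂ => S x) (sub_eq_zero.1 h0)
    have h3 : ∀ x, J (B x) = x := fun x => congrArg (fun S : X →L[ℂ] X => S x) hJ
    have h4 : ∀ x, y (G (v x)) = 0 := by
      intro x
      have h5 := h2 (B x)
      rw [hBy', h3] at h5
      exact h5.symm
    apply hy
    ext x
    rw [h2, h4]
    rfl
  · ext x
    have h6 : v (J ((B + G) x)) = x := congrArg (fun S : X →L[ℂ] X => S x) hinv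
    change y ((B + G) x) - y (G (v (J ((B + G) x)))) = 0
    rw [h6]
    change y (B x + G x) - y (G x) = 0
    rw [map_add, hBy', zero_add, sub_self]

/-- the winding number -/
theorem winding_unique (k l : ℤ) (f g : CT) (h : (fourier k : CT) * cexp f = fourier l * cexp g) :
    k = l := by
  let F : ℝ → ℂ := fun t => 2 * Real.pi * Complex.I * k * t + f (t : UnitAddCircle)
  let G : ℝ → ℂ := fun t => 2 * Real.pi * Complex.I * l * t + g (t : UnitAddCircle)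
  have hF : Continuous F := by
    have := rl_continuous f
    unfold rl at this
    fun_prop
  have hG : Continuous G := by
    have := rl_continuous g
    unfold rl at this
    fun_prop
  have hval : ∀ (m : ℤ) (u : CT) (t : ℝ), ((fourier m : CT) * cexp u) (t : UnitAddCircle) =
      Complex.exp (2 * Real.pi * Complex.I * m * t + u (t : UnitAddCircle)) := by
    intro m u t
    rw [Complex.exp_add, ContinuousMap.mul_apply, cexp_apply]
    congr 1
    have := fourier_coe_apply (T := (1 : ℝ)) (n := m) (x := t)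
    rw [this]
    simp
  have he : ∀ t ∈ (univ : Set ℝ), Complex.exp (F t) = Complex.exp (G t) := by
    intro t _
    rw [← hval k f t, ← hval l g t, h]
  have h1 := log_unique isPreconnected_univ F G hF.continuousOn hG.continuousOn he
    (mem_univ (0 : ℝ)) (mem_univ (1 : ℝ))
  have hp : ∀ u : CT, u ((1 : ℝ) : UnitAddCircle) = u ((0 : ℝ) : UnitAddCircle) := by
    intro u
    have := rl_periodic u 0
    rw [zero_add] at this
    exact this
  simp only [F, G] at h1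
  rw [hp f, hp g] at h1
  have h2 : (2 * Real.pi * Complex.I) * ((k : ℂ) - l) = 0 := by
    push_cast at h1
    linear_combination -h1
  have h3 : (2 * Real.pi * Complex.I : ℂ) ≠ 0 := by
    simp [Real.pi_ne_zero]
  have h4 : (k : ℂ) - l = 0 := (mul_eq_zero.1 h2).resolve_left h3
  have h5 : (k : ℂ) = l := sub_eq_zero.1 h4
  exact_mod_cast h5

variable {e : ℤ → X} {ε₀ : X →L[ℂ] ℂ} {M : CT → (X →L[ℂ] X)} {P : X →L[ℂ] X}

/-- nonzero index, norm limits of finite rank operators -/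
theorem index_lim (h : SIO e ε₀ M P) (a b : CT) (z : ℂ) (k : ℤ) (c d : ℕ → ℂ) (w : CT)
    (hc : Summable fun n => ‖c n‖) (hd : Summable fun n => ‖d n‖) (hk : k ≠ 0)
    (hf : a - algebraMap ℂ CT z =
      (b - algebraMap ℂ CT z) * fourier k * cexp (ps c) * cexp (psm d))
    (hw : (b - algebraMap ℂ CT z) * w = 1) (K : X →L[ℂ] X)
    (hK : K ∈ closure {F : X →L[ℂ] X | FiniteDimensional ℂ (LinearMap.range (F : X →ₗ[ℂ] X))}) :
    (∃ x : X, x ≠ 0 ∧ ((M a * P + M b * (1 - P)) + K) x = z • x) ∨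
      ∃ y : X →L[ℂ] ℂ, y ≠ 0 ∧ y.comp ((M a * P + M b * (1 - P)) + K) = z • y := by
  obtain ⟨h1, h2⟩ := one_sided h a b z k c d w hc hd hf hw
  obtain ⟨A, hA⟩ : ∃ A, A = (M a * P + M b * (1 - P) : X →L[ℂ] X) := ⟨_, rfl⟩
  have e1 : ∀ (B : X →L[ℂ] X) v, (B - algebraMap ℂ (X →L[ℂ] X) z) v = B v - z • v := by
    intro B v
    simp [Algebra.algebraMap_eq_smul_one]
  have e2 : ∀ (B : X →L[ℂ] X) (y : X →L[ℂ] ℂ),
      y.comp (B - algebraMap ℂ (X →L[ℂ] X) z) = y.comp B - z • y := by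
    intro B y
    ext v
    simp [Algebra.algebraMap_eq_smul_one]
  have happ : ∀ ε : ℝ, 0 < ε → ∃ F G : X →L[ℂ] X, K = G + F ∧ ‖G‖ < ε ∧
      FiniteDimensional ℂ (LinearMap.range (F : X →ₗ[ℂ] X)) := by
    intro ε hε
    obtain ⟨F, hF, hd⟩ := Metric.mem_closure_iff.1 hK ε hε
    refine ⟨F, K - F, by abel, ?_, hF⟩
    rwa [← dist_eq_norm]
  rcases lt_or_gt_of_ne hk with hk' | hk'
  · left
    obtain ⟨J, hJ⟩ := h2 hk'.le
    obtain ⟨x, hx, hxe⟩ := Fin.eig Alg.main h a b z k c d hc hd hk' hf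
    obtain ⟨F, G, rfl, hG, hF⟩ := happ (1 / (‖J‖ + 1)) (by positivity)
    rw [← hA] at hJ hxe ⊢
    have hG' : ‖G‖ * ‖J‖ < 1 := by
      have h3 : 0 < ‖J‖ + 1 := by positivity
      rw [lt_div_iff₀ h3] at hG
      nlinarith [norm_nonneg G, norm_nonneg J]
    obtain ⟨⟨J', hJ'⟩, x', hx', hxe'⟩ := small_right _ J G hJ hG' ⟨x, hx, by
      rw [e1, hxe, sub_self]⟩
    have e3 : A - algebraMap ℂ (X →L[ℂ] X) z + G = (A + G) - algebraMap ℂ (X →L[ℂ] X) z := by abel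
    rw [e3] at hJ' hxe'
    rw [e1] at hxe'
    have h4 := eig_of_right (A + G) J' F z hJ' ⟨x', hx', sub_eq_zero.1 hxe'⟩ hF
    rwa [add_assoc] at h4
  · right
    obtain ⟨J, hJ⟩ := h1 hk'.le
    obtain ⟨y, hy, hye⟩ := Fin.coeig Alg.main h a b z k c d w hc hd hk' hf hw
    obtain ⟨F, G, rfl, hG, hF⟩ := happ (1 / (‖J‖ + 1)) (by positivity)
    rw [← hA] at hJ hye ⊢
    have hG' : ‖J‖ * ‖G‖ < 1 := by
      have h3 : 0 < ‖J‖ + 1 := by positivity
      rw [lt_div_iff₀ h3] at hG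
      nlinarith [norm_nonneg G, norm_nonneg J]
    obtain ⟨⟨J', hJ'⟩, y', hy', hye'⟩ := small_left _ J G hJ hG' ⟨y, hy, by
      rw [e2, hye, sub_self]⟩
    have e3 : A - algebraMap ℂ (X →L[ℂ] X) z + G = (A + G) - algebraMap ℂ (X →L[ℂ] X) z := by abel
    rw [e3] at hJ' hye'
    rw [e2] at hye'
    have h4 := coeig_of_left (A + G) J' F z hJ' ⟨y', hy', sub_eq_zero.1 hye'⟩ hF
    rwa [add_assoc] at h4

end Pool.Agent.H43K
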