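import Pool.Agent.H43K.Core
import Pool.Agent.H43K.Lim
import Pool.Agent.R276.NC.Fin
import Pool.Agent.R276.NC.Fat
import Pool.Agent.R276.NC.Up
import Pool.Agent.R276.NC.Rs
import Pool.Agent.R276.CP.Had
import Pool.Agent.R276.CP.Pot
import Pool.Agent.W577.HI.G1

/-!
# Nuclear perturbations of singular integral operators
-/

set_option autoImplicit false

open MeasureTheory AddCircle Set Filter Topology Metric
open scoped ENNReal NNReal
open Pool.Agent.Y283.TO Pool.Agent.R276.SI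
open Pool.Agent.R276.NC.Fin (Nuc Kn tendsto_Kn fin_Kn)

namespace Pool.Agent.H43K

theorem rate {ρ : ℂ → ℝ} (hρ : Measurable ρ) (hρ0 : ∀ z, 0 ≤ ρ z) {U : Set ℂ} (hU : volume U ≠ ⊤)
    (hI : IntegrableOn (fun z => Real.posLog (ρ z)) U) (ε : ℝ≥0∞) (hε : 0 < ε) :
    ∃ s : ℝ, 0 < s ∧ ∫⁻ z in U, ENNReal.ofReal (Real.log (1 + ρ z * s)) ≤ ε := by
  have hlim : Tendsto (fun n : ℕ => ∫⁻ z in U,
      ENNReal.ofReal (Real.log (1 + ρ z * (1 / ((n : ℝ) + 1))))) atTop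
      (𝓝 (∫⁻ _ in U, (0 : ℝ≥0∞))) := by
    refine tendsto_lintegral_of_dominated_convergence
      (fun z => ENNReal.ofReal (Real.log 2 + Real.posLog (ρ z))) ?_ ?_ ?_ ?_
    · intro n
      exact ENNReal.measurable_ofReal.comp (Real.measurable_log.comp ((hρ.mul_const _).const_add 1))
    · intro n
      refine ae_of_all _ fun z => ENNReal.ofReal_le_ofReal ?_
      have h0 : (0 : ℝ) ≤ 1 / ((n : ℝ) + 1) := by positivity
      have h1 : (1 : ℝ) / ((n : ℝ) + 1) ≤ 1 := by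
        rw [div_le_one (by positivity)]
        linarith [Nat.cast_nonneg (α := ℝ) n]
      have h2 : 1 + ρ z * (1 / ((n : ℝ) + 1)) ≤ 2 * max 1 (ρ z) := by
        have h3 : ρ z * (1 / ((n : ℝ) + 1)) ≤ ρ z * 1 := mul_le_mul_of_nonneg_left h1 (hρ0 z)
        linarith [le_max_left 1 (ρ z), le_max_right 1 (ρ z)]
      have h3 : 0 ≤ ρ z * (1 / ((n : ℝ) + 1)) := mul_nonneg (hρ0 z) h0
      have h4 : (1 : ℝ) ≤ max 1 (ρ z) := le_max_left _ _
      rw [Real.posLog_eq_log_max_one (hρ0 z), ← Real.log_mul (by norm_num) (by linarith)]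
      exact Real.log_le_log (by linarith) h2
    · have h1 : IntegrableOn (fun z => Real.log 2 + Real.posLog (ρ z)) U :=
        (integrableOn_const hU).add hI
      exact h1.lintegral_lt_top.ne
    · refine ae_of_all _ fun z => ?_
      have h1 : Tendsto (fun n : ℕ => ρ z * (1 / ((n : ℝ) + 1))) atTop (𝓝 (ρ z * 0)) :=
        tendsto_one_div_add_atTop_nhds_zero_nat.const_mul _
      have h2 : Tendsto (fun n : ℕ => Real.log (1 + ρ z * (1 / ((n : ℝ) + 1)))) atTop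
          (𝓝 (Real.log (1 + ρ z * 0))) := by
        refine (Real.continuousAt_log ?_).tendsto.comp (h1.const_add 1)
        simp
      have h3 := (ENNReal.continuous_ofReal.tendsto _).comp h2
      rw [mul_zero, add_zero, Real.log_one, ENNReal.ofReal_zero] at h3
      exact h3
  rw [lintegral_zero] at hlim
  obtain ⟨n, hn⟩ := (hlim.eventually_le_const hε).exists
  exact ⟨1 / ((n : ℝ) + 1), by positivity, hn⟩

theorem rates {ρ : ℂ → ℝ} (hρ : Measurable ρ) (hρ0 : ∀ z, 0 ≤ ρ z) {U : Set ℂ} (hU : volume U ≠ ⊤)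
    (hI : IntegrableOn (fun z => Real.posLog (ρ z)) U) :
    ∃ s : ℕ → ℝ, (∀ j, 0 < s j) ∧
      ∑' j, ∫⁻ z in U, ENNReal.ofReal (Real.log (1 + ρ z * s j)) ≠ ⊤ := by
  choose s hs1 hs2 using fun j : ℕ => rate hρ hρ0 hU hI ((2⁻¹ : ℝ≥0∞) ^ j)
    (ENNReal.pow_pos (by norm_num) j)
  refine ⟨s, hs1, ne_top_of_le_ne_top ?_ (ENNReal.tsum_le_tsum hs2)⟩
  rw [ENNReal.tsum_geometric, ENNReal.one_sub_inv_two]
  norm_num

theorem compact_of_nuc {X : Type} [NormedAddCommGroup X] [NormedSpace ℂ X] [CompleteSpace X]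
    {K : X →L[ℂ] X} {f : ℕ → (X →L[ℂ] ℂ)} {x : ℕ → X} (h : Nuc K f x) : IsCompactOperator K := by
  refine isCompactOperator_of_tendsto (tendsto_Kn h) (Eventually.of_forall fun n => ?_)
  have := fin_Kn f x n 1
  rw [one_smul] at this
  exact Pool.Agent.Y271.CO.finrank_compact _ this

theorem closure_of_nuc {X : Type} [NormedAddCommGroup X] [NormedSpace ℂ X] [CompleteSpace X]
    {K : X →L[ℂ] X} {f : ℕ → (X →L[ℂ] ℂ)} {x : ℕ → X} (h : Nuc K f x) (c : ℂ) :
    c • K ∈ closure {F : X →L[ℂ] X | FiniteDimensional ℂ (LinearMap.range (F : X →ₗ[ℂ] X))} := by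
  refine mem_closure_of_tendsto ((tendsto_Kn h).const_smul c) (Eventually.of_forall fun n => ?_)
  exact fin_Kn f x n c

theorem quad_expand {X : Type} [NormedAddCommGroup X] [NormedSpace ℂ X] (T : X →L[ℂ] X) (α β : ℂ) :
    (T - α • (1 : X →L[ℂ] X)) * (T - β • (1 : X →L[ℂ] X)) =
      T * T - (α + β) • T + (α * β) • (1 : X →L[ℂ] X) := by
  ext v
  change T (T v - β • v) - α • (T v - β • v) = T (T v) - (α + β) • T v + (α * β) • v
  rw [map_sub, map_smul, smul_sub, add_smul, mul_smul]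
  abel

/-- the constant case, compact perturbations -/
theorem const_compact {X : Type} [NormedAddCommGroup X] [NormedSpace ℂ X] [CompleteSpace X]
    (P F : X →L[ℂ] X) (hP : P * P = P) (α β : ℂ) (hF : IsCompactOperator F) :
    (∃ c : ℂ, (α • P + β • (1 - P)) + F = c • (1 : X →L[ℂ] X)) ∨
      HasHyp ((α • P + β • (1 - P)) + F) := by
  by_cases hs : ∃ c : ℂ, (α • P + β • (1 - P)) + F = c • (1 : X →L[ℂ] X)
  · exact Or.inl hs
  right
  push Not at hs
  obtain ⟨T, hT⟩ : ∃ T, T = (α • P + β • (1 - P)) + F := ⟨_, rfl⟩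
  rw [← hT] at hs ⊢
  have hPv : ∀ v, P (P v) = P v := fun v => congrArg (fun S : X →L[ℂ] X => S v) hP
  have hTv : ∀ v, T v = α • P v + β • (v - P v) + F v := by
    intro v
    rw [hT]
    rfl
  obtain ⟨G, hG⟩ : ∃ G : X →L[ℂ] X, G = (T - α • (1 : X →L[ℂ] X)) * (T - β • (1 : X →L[ℂ] X)) :=
    ⟨_, rfl⟩
  have e : G = (T - F - α • (1 : X →L[ℂ] X)).comp F + F.comp (T - β • (1 : X →L[ℂ] X)) := by
    ext v
    rw [hG]
    change T (T v - β • v) - α • (T v - β • v) = (T (F v) - F (F v) - α • F v) + F (T v - β • v)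
    have g1 : T v - β • v = (α - β) • P v + F v := by
      rw [hTv, smul_sub, sub_smul]
      abel
    have g2 : T ((α - β) • P v) = (α - β) • (α • P v) + F ((α - β) • P v) := by
      rw [map_smul, hTv, hPv, sub_self, smul_zero, add_zero, smul_add, map_smul]
    rw [g1, map_add, map_add, g2, smul_add]
    rw [smul_comm (α - β) α (P v)]
    abel
  have hGc : IsCompactOperator G := by
    have h1 : IsCompactOperator ((T - F - α • (1 : X →L[ℂ] X)).comp F) :=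
      hF.clm_comp (T - F - α • (1 : X →L[ℂ] X))
    have h2 : IsCompactOperator (F.comp (T - β • (1 : X →L[ℂ] X))) :=
      hF.comp_clm (T - β • (1 : X →L[ℂ] X))
    have h3 := h1.add h2
    rw [e]
    exact h3
  have hcomm : ∀ Q : X →L[ℂ] X, Q * T = T * Q → Q * G = G * Q := by
    intro Q hQ
    have h1 : ∀ c : ℂ, Q * (T - c • (1 : X →L[ℂ] X)) = (T - c • (1 : X →L[ℂ] X)) * Q := by
      intro c
      rw [mul_sub, sub_mul, hQ, mul_smul_comm, smul_mul_assoc, mul_one, one_mul]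
    rw [hG, ← mul_assoc, h1 α, mul_assoc, h1 β, mul_assoc]
  by_cases hsc : Pool.Agent.W402.HI.IsScalar G
  · obtain ⟨c, hc⟩ := hsc
    obtain ⟨δ, hδ⟩ := IsAlgClosed.exists_pow_nat_eq ((α + β) ^ 2 - 4 * (α * β - c)) (n := 2)
      (by norm_num)
    obtain ⟨α', hα'⟩ : ∃ α', α' = (α + β + δ) / 2 := ⟨_, rfl⟩
    obtain ⟨β', hβ'⟩ : ∃ β', β' = (α + β - δ) / 2 := ⟨_, rfl⟩
    have h1 : α' + β' = α + β := by rw [hα', hβ']; ring
    have h2 : α' * β' = α * β - c := by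
      rw [hα', hβ']
      linear_combination (-1 / 4 : ℂ) * hδ
    have h3 : (T - α' • (1 : X →L[ℂ] X)) * (T - β' • (1 : X →L[ℂ] X)) = 0 := by
      have h4 := quad_expand T α' β'
      have h5 := quad_expand T α β
      rw [← hG, hc] at h5
      rw [h4, h1, h2, sub_smul]
      rw [← sub_eq_zero] at h5
      have h6 : T * T - (α + β) • T + ((α * β) • (1 : X →L[ℂ] X) - c • (1 : X →L[ℂ] X)) =
          -(c • (1 : X →L[ℂ] X) - (T * T - (α + β) • T + (α * β) • (1 : X →L[ℂ] X))) := by abel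
      rw [h6, h5, neg_zero]
    obtain ⟨z, x, hx, hxe⟩ := eig_of_quad T α' β' (by
      rw [h3, show ((0 : X →L[ℂ] X) : X →ₗ[ℂ] X) = 0 from rfl, LinearMap.range_zero]
      infer_instance) hs
    exact hyp_of_eig T hs z x hx hxe
  · obtain ⟨V, v1, v2, v3, v4⟩ := Pool.Agent.W577.HI.G1.main X G hGc hsc
    exact ⟨V, v1, v2, v3, fun Q hQ v hv => v4 Q (hcomm Q hQ) v hv⟩

theorem core_nuc {X : Type} [NormedAddCommGroup X] [NormedSpace ℂ X] [CompleteSpace X]
    {e : ℤ → X} {ε₀ : X →L[ℂ] ℂ} {M : CT → (X →L[ℂ] X)} {P : X →L[ℂ] X} (h : SIO e ε₀ M P)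
    (a b : CT) (L q : ℝ) (hL : 0 < L) (hq : 1 / 2 ≤ q) (hq2 : 2 * q ^ 2 < 1)
    (ha : HD (rl a) L q) (hb : HD (rl b) L q) :
    ∃ s : ℕ → ℝ, (∀ j, 0 < s j) ∧ ∀ (K : X →L[ℂ] X) (f : ℕ → (X →L[ℂ] ℂ)) (x : ℕ → X), Nuc K f x →
      (∀ j, ‖x j‖ ≤ s j) → ∀ m : Measure ℂ, Pool.Agent.R276.CP.LogBd m →
      ∀ᵐ κ ∂m, (∃ c : ℂ, (M a * P + M b * (1 - P)) + κ • K = c • (1 : X →L[ℂ] X)) ∨
        HasHyp ((M a * P + M b * (1 - P)) + κ • K) := by
  have htri := tri h a b L q hL hq hq2 ha hb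
  obtain ⟨A, hA⟩ : ∃ A, A = (M a * P + M b * (1 - P) : X →L[ℂ] X) := ⟨_, rfl⟩
  rw [← hA] at htri ⊢
  rcases htri with ⟨z, k, c, d, w, hk, hc, hd, hf, hw⟩ | ⟨α, β, hαβ⟩ | ⟨R, h0, hI, hw1, hw2⟩
  · refine ⟨fun _ => 1, fun _ => one_pos, fun K f x hK _ m _ => ae_of_all _ fun κ => ?_⟩
    by_cases hs : ∃ c : ℂ, A + κ • K = c • (1 : X →L[ℂ] X)
    · exact Or.inl hs
    right
    push Not at hs
    rcases index_lim h a b z k c d w hc hd hk hf hw (κ • K) (closure_of_nuc hK κ) with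
      ⟨x, hx, hxe⟩ | ⟨y, hy, hye⟩
    · rw [← hA] at hxe
      exact hyp_of_eig _ hs z x hx hxe
    · rw [← hA] at hye
      exact hyp_of_coeig _ hs z y hy hye
  · refine ⟨fun _ => 1, fun _ => one_pos, fun K f x hK _ m _ => ae_of_all _ fun κ => ?_⟩
    rw [hαβ]
    exact const_compact P (κ • K) (Alg.main X e ε₀ M P h).1 α β
      ((compact_of_nuc hK).smul κ)
  · have hmeas : StronglyMeasurable fun z : ℂ => resolvent A z :=
      Pool.Agent.W610.HY.Fin.hMEAS (X →L[ℂ] X) A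
    obtain ⟨s, hs1, hs2⟩ := rates (ρ := fun z => ‖resolvent A z‖) hmeas.norm.measurable
      (fun z => norm_nonneg _) (measure_ball_lt_top (μ := (volume : Measure ℂ))
        (x := (0 : ℂ)) (r := R)).ne hI
    refine ⟨s, hs1, fun K f x hK hx m hm => ?_⟩
    have hS : ∑' j, ∫⁻ z in ball (0 : ℂ) R,
        ENNReal.ofReal (Real.log (1 + ‖resolvent A z (x j)‖)) ≠ ⊤ := by
      refine ne_top_of_le_ne_top hs2 (ENNReal.tsum_le_tsum fun j => lintegral_mono fun z =>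
        ENNReal.ofReal_le_ofReal (Real.log_le_log (by positivity) ?_))
      have h1 : ‖resolvent A z (x j)‖ ≤ ‖resolvent A z‖ * s j :=
        ((resolvent A z).le_opNorm (x j)).trans
          (mul_le_mul_of_nonneg_left (hx j) (norm_nonneg _))
      linarith
    have h3 := Pool.Agent.R276.NC.Fin.hyper (Pool.Agent.R276.NC.Fat.main
      (Pool.Agent.R276.NC.Up.main Pool.Agent.R276.CP.Had.main)
      (Pool.Agent.R276.NC.Rs.main Pool.Agent.R276.CP.Had.main) Pool.Agent.R276.CP.Pot.main)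
      A K f x hK isOpen_ball h0 hI hS hw1 hw2 m hm
    filter_upwards [h3] with κ hκ
    exact Or.inr hκ

end Pool.Agent.H43K
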