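import Pool.Agent.H43K.Nuc

/-!
# Toeplitz operators on the range of the Riesz projection
-/

set_option autoImplicit false

open MeasureTheory AddCircle Set Filter Topology Metric
open scoped ENNReal NNReal
open Pool.Agent.Y283.TO Pool.Agent.R276.SI
open Pool.Agent.R276.NC.Fin (Nuc Kn tendsto_Kn fin_Kn)

namespace Pool.Agent.H43K

section

variable {X : Type} [NormedAddCommGroup X] [NormedSpace ℂ X]

/-- finite rank operators -/
def FR (K : X →L[ℂ] X) : Prop := FiniteDimensional ℂ (LinearMap.range (K : X →ₗ[ℂ] X))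

theorem sub_alg (B : X →L[ℂ] X) (z : ℂ) (v : X) :
    (B - algebraMap ℂ (X →L[ℂ] X) z) v = B v - z • v := by
  simp [Algebra.algebraMap_eq_smul_one]

theorem comp_alg (B : X →L[ℂ] X) (z : ℂ) (y : X →L[ℂ] ℂ) :
    y.comp (B - algebraMap ℂ (X →L[ℂ] X) z) = y.comp B - z • y := by
  ext v
  simp [Algebra.algebraMap_eq_smul_one]

theorem split_lim {K : X →L[ℂ] X} (hK : K ∈ closure {F : X →L[ℂ] X | FR F}) (ε : ℝ) (hε : 0 < ε) :
    ∃ F G : X →L[ℂ] X, K = G + F ∧ ‖G‖ < ε ∧ FR F := by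
  obtain ⟨F, hF, hd⟩ := Metric.mem_closure_iff.1 hK ε hε
  refine ⟨F, K - F, by abel, ?_, hF⟩
  rwa [← dist_eq_norm]

theorem lim_right [CompleteSpace X] (A J K : X →L[ℂ] X) (z : ℂ)
    (hJ : (A - algebraMap ℂ (X →L[ℂ] X) z) * J = 1) (hk : ∃ x : X, x ≠ 0 ∧ A x = z • x)
    (hK : K ∈ closure {F : X →L[ℂ] X | FR F}) : ∃ x : X, x ≠ 0 ∧ (A + K) x = z • x := by
  obtain ⟨x, hx, hxe⟩ := hk
  obtain ⟨F, G, rfl, hG, hF⟩ := split_lim hK (1 / (‖J‖ + 1)) (by positivity)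
  have hG' : ‖G‖ * ‖J‖ < 1 := by
    have h3 : 0 < ‖J‖ + 1 := by positivity
    rw [lt_div_iff₀ h3] at hG
    nlinarith [norm_nonneg G, norm_nonneg J]
  obtain ⟨⟨J', hJ'⟩, x', hx', hxe'⟩ := small_right _ J G hJ hG' ⟨x, hx, by
    rw [sub_alg, hxe, sub_self]⟩
  have e3 : A - algebraMap ℂ (X →L[ℂ] X) z + G = (A + G) - algebraMap ℂ (X →L[ℂ] X) z := by abel
  rw [e3] at hJ' hxe'
  rw [sub_alg] at hxe'
  have h4 := eig_of_right (A + G) J' F z hJ' ⟨x', hx', sub_eq_zero.1 hxe'⟩ hF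
  rwa [add_assoc] at h4

theorem lim_left [CompleteSpace X] (A J K : X →L[ℂ] X) (z : ℂ)
    (hJ : J * (A - algebraMap ℂ (X →L[ℂ] X) z) = 1)
    (hk : ∃ y : X →L[ℂ] ℂ, y ≠ 0 ∧ y.comp A = z • y)
    (hK : K ∈ closure {F : X →L[ℂ] X | FR F}) :
    ∃ y : X →L[ℂ] ℂ, y ≠ 0 ∧ y.comp (A + K) = z • y := by
  obtain ⟨y, hy, hye⟩ := hk
  obtain ⟨F, G, rfl, hG, hF⟩ := split_lim hK (1 / (‖J‖ + 1)) (by positivity)
  have hG' : ‖J‖ * ‖G‖ < 1 := by
    have h3 : 0 < ‖J‖ + 1 := by positivity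
    rw [lt_div_iff₀ h3] at hG
    nlinarith [norm_nonneg G, norm_nonneg J]
  obtain ⟨⟨J', hJ'⟩, y', hy', hye'⟩ := small_left _ J G hJ hG' ⟨y, hy, by
    rw [comp_alg, hye, sub_self]⟩
  have e3 : A - algebraMap ℂ (X →L[ℂ] X) z + G = (A + G) - algebraMap ℂ (X →L[ℂ] X) z := by abel
  rw [e3] at hJ' hye'
  rw [comp_alg] at hye'
  have h4 := coeig_of_left (A + G) J' F z hJ' ⟨y', hy', sub_eq_zero.1 hye'⟩ hF
  rwa [add_assoc] at h4

/-- the Hardy space -/
def hardy (P : X →L[ℂ] X) : Submodule ℂ X := LinearMap.ker ((1 - P : X →L[ℂ] X) : X →ₗ[ℂ] X)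

theorem mem_hardy {P : X →L[ℂ] X} {x : X} : x ∈ hardy P ↔ P x = x := by
  unfold hardy
  rw [LinearMap.mem_ker]
  change x - P x = 0 ↔ _
  rw [sub_eq_zero]
  exact eq_comm

theorem closed_hardy (P : X →L[ℂ] X) : IsClosed (hardy P : Set X) := (1 - P : X →L[ℂ] X).isClosed_ker

theorem complete_hardy [CompleteSpace X] (P : X →L[ℂ] X) : CompleteSpace (hardy P) :=
  (closed_hardy P).completeSpace_coe

/-- the projection -/
noncomputable def pr (P : X →L[ℂ] X) (hP : P * P = P) : X →L[ℂ] hardy P :=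
  P.codRestrict (hardy P) fun x => mem_hardy.2 (congrArg (fun S : X →L[ℂ] X => S x) hP)

theorem pr_coe (P : X →L[ℂ] X) (hP : P * P = P) (x : X) : ((pr P hP x : hardy P) : X) = P x := rfl

theorem pr_self (P : X →L[ℂ] X) (hP : P * P = P) (y : hardy P) : pr P hP (y : X) = y :=
  Subtype.ext (mem_hardy.1 y.2)

variable {e : ℤ → X} {ε₀ : X →L[ℂ] ℂ} {M : CT → (X →L[ℂ] X)} {P : X →L[ℂ] X}

/-- the extended operator -/
noncomputable def ext (M : CT → (X →L[ℂ] X)) (P : X →L[ℂ] X) (φ : CT) (β : ℂ) : X →L[ℂ] X :=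
  M φ * P + M (β • (1 : CT)) * (1 - P)

theorem ext_apply (h : SIO e ε₀ M P) (φ : CT) (β : ℂ) (x : X) :
    ext M P φ β x = M φ (P x) + β • (x - P x) := by
  unfold ext
  rw [h.smul, h.one]
  rfl

variable {T : hardy P →L[ℂ] hardy P} {φ : CT}

theorem pr_ext (h : SIO e ε₀ M P) (hP : P * P = P)
    (hT : ∀ y : hardy P, ((T y : hardy P) : X) = P (M φ y)) (β : ℂ) (x : X) :
    pr P hP (ext M P φ β x) = T (pr P hP x) := by
  apply Subtype.ext
  have h1 : P (P x) = P x := congrArg (fun S : X →L[ℂ] X => S x) hP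
  rw [pr_coe, hT, pr_coe, ext_apply h, map_add, map_smul, map_sub, h1, sub_self, smul_zero, add_zero]

theorem right_tr (h : SIO e ε₀ M P) (hP : P * P = P)
    (hT : ∀ y : hardy P, ((T y : hardy P) : X) = P (M φ y)) (β z : ℂ) (J : X →L[ℂ] X)
    (hJ : (ext M P φ β - algebraMap ℂ (X →L[ℂ] X) z) * J = 1) :
    (T - algebraMap ℂ (hardy P →L[ℂ] hardy P) z) *
      ((pr P hP).comp (J.comp (hardy P).subtypeL)) = 1 := by
  ext1 y
  change (T - algebraMap ℂ (hardy P →L[ℂ] hardy P) z) (pr P hP (J (y : X))) = y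
  rw [sub_alg, ← pr_ext h hP hT β, ← map_smul, ← map_sub, ← sub_alg]
  have h1 : (ext M P φ β - algebraMap ℂ (X →L[ℂ] X) z) (J (y : X)) = y :=
    congrArg (fun S : X →L[ℂ] X => S (y : X)) hJ
  rw [h1, pr_self]

theorem left_tr (h : SIO e ε₀ M P) (hP : P * P = P)
    (hT : ∀ y : hardy P, ((T y : hardy P) : X) = P (M φ y)) (β z : ℂ) (hβ : β ≠ z) (J : X →L[ℂ] X)
    (hJ : J * (ext M P φ β - algebraMap ℂ (X →L[ℂ] X) z) = 1) :
    ((pr P hP).comp (J.comp (hardy P).subtypeL)) *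
      (T - algebraMap ℂ (hardy P →L[ℂ] hardy P) z) = 1 := by
  have hJv : ∀ x, J ((ext M P φ β - algebraMap ℂ (X →L[ℂ] X) z) x) = x := fun x =>
    congrArg (fun S : X →L[ℂ] X => S x) hJ
  have hPv : ∀ x, P (P x) = P x := fun x => congrArg (fun S : X →L[ℂ] X => S x) hP
  have hJw : ∀ w, P w = 0 → pr P hP (J w) = 0 := by
    intro w hw
    have h1 := hJv w
    rw [sub_alg, ext_apply h, hw, map_zero, zero_add, sub_zero, ← sub_smul, map_smul] at h1
    have h2 : J w = (β - z)⁻¹ • w := by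
      rw [← h1, smul_smul, inv_mul_cancel₀ (sub_ne_zero.2 hβ), one_smul]
      rw [h1]
    rw [h2, map_smul]
    have h3 : pr P hP w = 0 := Subtype.ext (by rw [pr_coe, hw]; rfl)
    rw [h3, smul_zero]
  ext1 y
  change pr P hP (J (((T - algebraMap ℂ (hardy P →L[ℂ] hardy P) z) y : hardy P) : X)) = y
  obtain ⟨x, hx⟩ : ∃ x, x = (ext M P φ β - algebraMap ℂ (X →L[ℂ] X) z) (y : X) := ⟨_, rfl⟩
  have h4 : (((T - algebraMap ℂ (hardy P →L[ℂ] hardy P) z) y : hardy P) : X) = P x := by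
    rw [sub_alg, hx, sub_alg, map_sub, map_smul, mem_hardy.1 y.2, ext_apply h, mem_hardy.1 y.2,
      sub_self, smul_zero, add_zero]
    change ((T y : hardy P) : X) - z • (y : X) = _
    rw [hT]
  have h5 : P x = x - (x - P x) := by abel
  rw [h4, h5, map_sub, map_sub, hJw (x - P x) (by rw [map_sub, hPv, sub_self]), sub_zero, hx, hJv,
    pr_self]

theorem eig_tr (h : SIO e ε₀ M P) (hP : P * P = P)
    (hT : ∀ y : hardy P, ((T y : hardy P) : X) = P (M φ y)) (β z : ℂ) (hβ : β ≠ z)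
    (hk : ∃ x : X, x ≠ 0 ∧ ext M P φ β x = z • x) : ∃ y : hardy P, y ≠ 0 ∧ T y = z • y := by
  obtain ⟨x, hx, hxe⟩ := hk
  refine ⟨pr P hP x, ?_, ?_⟩
  · intro h0
    have h1 : P x = 0 := by rw [← pr_coe P hP, h0]; rfl
    rw [ext_apply h, h1, map_zero, zero_add, sub_zero] at hxe
    have h2 : (β - z) • x = 0 := by rw [sub_smul, hxe, sub_self]
    rcases smul_eq_zero.1 h2 with h3 | h3
    · exact hβ (sub_eq_zero.1 h3)
    · exact hx h3
  · rw [← pr_ext h hP hT β, hxe, map_smul]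

theorem coeig_tr (h : SIO e ε₀ M P) (hP : P * P = P)
    (hT : ∀ y : hardy P, ((T y : hardy P) : X) = P (M φ y)) (β z : ℂ) (hβ : β ≠ z)
    (hk : ∃ f : X →L[ℂ] ℂ, f ≠ 0 ∧ f.comp (ext M P φ β) = z • f) :
    ∃ g : hardy P →L[ℂ] ℂ, g ≠ 0 ∧ g.comp T = z • g := by
  obtain ⟨f, hf, hfe⟩ := hk
  have hfv : ∀ x, f (ext M P φ β x) = z * f x := fun x =>
    congrArg (fun S : X →L[ℂ] ℂ => S x) hfe
  have hPv : ∀ x, P (P x) = P x := fun x => congrArg (fun S : X →L[ℂ] X => S x) hP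
  have hw : ∀ w, P w = 0 → f w = 0 := by
    intro w hw
    have h1 := hfv w
    rw [ext_apply h, hw, map_zero, zero_add, sub_zero, map_smul, smul_eq_mul] at h1
    have h2 : (β - z) * f w = 0 := by rw [sub_mul, h1, sub_self]
    rcases mul_eq_zero.1 h2 with h3 | h3
    · exact absurd (sub_eq_zero.1 h3) hβ
    · exact h3
  have hfP : ∀ x, f x = f (P x) := by
    intro x
    have h1 := hw (x - P x) (by rw [map_sub, hPv, sub_self])
    rw [map_sub] at h1
    exact sub_eq_zero.1 h1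
  refine ⟨f.comp (hardy P).subtypeL, ?_, ?_⟩
  · intro h0
    apply hf
    ext x
    rw [hfP]
    exact congrArg (fun S : hardy P →L[ℂ] ℂ => S (pr P hP x)) h0
  · ext y
    change f ((T y : hardy P) : X) = z * f (y : X)
    have h1 := hfv (y : X)
    rw [ext_apply h, mem_hardy.1 y.2, sub_self, smul_zero, add_zero] at h1
    rw [hT, ← hfP, h1]

/-- the resolvent -/
theorem res_tr (h : SIO e ε₀ M P) (hP : P * P = P)
    (hT : ∀ y : hardy P, ((T y : hardy P) : X) = P (M φ y)) (β z : ℂ) (hβ : β ≠ z)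
    (hz : z ∈ resolventSet ℂ (ext M P φ β)) :
    z ∈ resolventSet ℂ T ∧
      ‖resolvent T z‖ ≤ (‖pr P hP‖ * ‖(hardy P).subtypeL‖) * ‖resolvent (ext M P φ β) z‖ := by
  rw [spectrum.mem_resolventSet_iff] at hz
  obtain ⟨u, hu⟩ := hz
  obtain ⟨J, hJd⟩ : ∃ J : X →L[ℂ] X, J = -((u⁻¹ : (X →L[ℂ] X)ˣ) : X →L[ℂ] X) := ⟨_, rfl⟩
  have hres : resolvent (ext M P φ β) z = -J := by
    rw [resolvent, ← hu, Ring.inverse_unit, hJd, neg_neg]
  have h1 : ext M P φ β - algebraMap ℂ (X →L[ℂ] X) z = -(u : X →L[ℂ] X) := by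
    rw [hu, neg_sub]
  have j1 : (ext M P φ β - algebraMap ℂ (X →L[ℂ] X) z) * J = 1 := by
    rw [h1, hJd, neg_mul_neg, Units.mul_inv]
  have j2 : J * (ext M P φ β - algebraMap ℂ (X →L[ℂ] X) z) = 1 := by
    rw [h1, hJd, neg_mul_neg, Units.inv_mul]
  have r1 := right_tr h hP hT β z J j1
  have r2 := left_tr h hP hT β z hβ J j2
  obtain ⟨S, hS⟩ : ∃ S : hardy P →L[ℂ] hardy P, S = (pr P hP).comp ((-J).comp (hardy P).subtypeL) :=
    ⟨_, rfl⟩
  have hSv : ∀ y : hardy P, S y = -pr P hP (J (y : X)) := by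
    intro y
    rw [hS]
    change pr P hP (-(J (y : X))) = _
    rw [map_neg]
  have q1 : ∀ y : hardy P, T (pr P hP (J (y : X))) - z • pr P hP (J (y : X)) = y := by
    intro y
    rw [← sub_alg]
    exact congrArg (fun S : hardy P →L[ℂ] hardy P => S y) r1
  have q2 : ∀ y : hardy P, pr P hP (J (((T y - z • y : hardy P)) : X)) = y := by
    intro y
    rw [← sub_alg]
    exact congrArg (fun S : hardy P →L[ℂ] hardy P => S y) r2
  have e1 : ∀ y : hardy P, (algebraMap ℂ (hardy P →L[ℂ] hardy P) z - T) y = z • y - T y := by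
    intro y
    simp [Algebra.algebraMap_eq_smul_one]
  have t1 : (algebraMap ℂ (hardy P →L[ℂ] hardy P) z - T) * S = 1 := by
    ext1 y
    change (algebraMap ℂ (hardy P →L[ℂ] hardy P) z - T) (S y) = y
    rw [e1, hSv, map_neg, smul_neg]
    rw [show -(z • pr P hP (J (y : X))) - -T (pr P hP (J (y : X))) =
      T (pr P hP (J (y : X))) - z • pr P hP (J (y : X)) by abel]
    exact q1 y
  have t2 : S * (algebraMap ℂ (hardy P →L[ℂ] hardy P) z - T) = 1 := by
    ext1 y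
    change S ((algebraMap ℂ (hardy P →L[ℂ] hardy P) z - T) y) = y
    rw [e1, hSv, ← map_neg, ← map_neg]
    have e2 : -(((z • y - T y : hardy P)) : X) = ((T y - z • y : hardy P) : X) := by
      rw [Submodule.coe_sub, Submodule.coe_sub, neg_sub]
    rw [e2]
    exact q2 y
  obtain ⟨v, hv⟩ : ∃ v : (hardy P →L[ℂ] hardy P)ˣ,
      v = ⟨algebraMap ℂ (hardy P →L[ℂ] hardy P) z - T, S, t1, t2⟩ := ⟨_, rfl⟩
  have hv1 : (v : hardy P →L[ℂ] hardy P) = algebraMap ℂ (hardy P →L[ℂ] hardy P) z - T := by rw [hv]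
  have hv2 : ((v⁻¹ : (hardy P →L[ℂ] hardy P)ˣ) : hardy P →L[ℂ] hardy P) = S := by
    rw [hv]; rfl
  refine ⟨⟨v, hv1⟩, ?_⟩
  rw [hres, resolvent, ← hv1, Ring.inverse_unit, hv2, hS]
  refine (ContinuousLinearMap.opNorm_comp_le _ _).trans ?_
  rw [mul_assoc]
  refine mul_le_mul_of_nonneg_left ?_ (norm_nonneg _)
  rw [mul_comm]
  exact ContinuousLinearMap.opNorm_comp_le _ _

/-- the converse -/
theorem res_conv (h : SIO e ε₀ M P) (hP : P * P = P)
    (hT : ∀ y : hardy P, ((T y : hardy P) : X) = P (M φ y)) (β z : ℂ) (hβ : β ≠ z)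
    (hz : z ∈ resolventSet ℂ T) : z ∈ resolventSet ℂ (ext M P φ β) := by
  rw [spectrum.mem_resolventSet_iff] at hz
  obtain ⟨u, hu⟩ := hz
  obtain ⟨S, hSd⟩ : ∃ S : hardy P →L[ℂ] hardy P,
    S = ((u⁻¹ : (hardy P →L[ℂ] hardy P)ˣ) : hardy P →L[ℂ] hardy P) := ⟨_, rfl⟩
  have s1 : ∀ y, z • S y - T (S y) = y := by
    intro y
    have h1 : ((u : hardy P →L[ℂ] hardy P) * S) y = y := by rw [hSd, Units.mul_inv]; rfl
    rw [hu] at h1
    have h2 : (algebraMap ℂ (hardy P →L[ℂ] hardy P) z - T) (S y) = z • S y - T (S y) := by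
      simp [Algebra.algebraMap_eq_smul_one]
    rw [← h2]
    exact h1
  have s2 : ∀ y, S (z • y - T y) = y := by
    intro y
    have h1 : (S * (u : hardy P →L[ℂ] hardy P)) y = y := by rw [hSd, Units.inv_mul]; rfl
    rw [hu] at h1
    have h2 : (algebraMap ℂ (hardy P →L[ℂ] hardy P) z - T) y = z • y - T y := by
      simp [Algebra.algebraMap_eq_smul_one]
    rw [← h2]
    exact h1
  have hPv : ∀ x, P (P x) = P x := fun x => congrArg (fun S : X →L[ℂ] X => S x) hP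
  have hzβ : z - β ≠ 0 := sub_ne_zero.2 (Ne.symm hβ)
  obtain ⟨W, hW⟩ : ∃ W : X →L[ℂ] X, W = (hardy P).subtypeL.comp (S.comp (pr P hP)) := ⟨_, rfl⟩
  have hWv : ∀ x, W x = ((S (pr P hP x) : hardy P) : X) := fun x => by rw [hW]; rfl
  have hPW : ∀ x, P (W x) = W x := fun x => by rw [hWv]; exact mem_hardy.1 (S (pr P hP x)).2
  have w1 : ∀ x, z • W x - P (M φ (W x)) = P x := by
    intro x
    have h1 := congrArg (fun y : hardy P => (y : X)) (s1 (pr P hP x))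
    change z • ((S (pr P hP x) : hardy P) : X) - ((T (S (pr P hP x)) : hardy P) : X) = P x at h1
    rw [hT, ← hWv] at h1
    exact h1
  have w2 : ∀ x, W (z • x - ext M P φ β x) = P x := by
    intro x
    rw [hWv, map_sub, map_smul, pr_ext h hP hT β, s2]
    rfl
  obtain ⟨B, hB⟩ : ∃ B : X →L[ℂ] X, B = W + (z - β)⁻¹ • ((1 - P) * (1 + M φ * W)) := ⟨_, rfl⟩
  have hBv : ∀ x, B x = W x + (z - β)⁻¹ • ((x + M φ (W x)) - P (x + M φ (W x))) := by
    intro x
    rw [hB]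
    rfl
  have hB1 : (algebraMap ℂ (X →L[ℂ] X) z - ext M P φ β) * B = 1 := by
    ext1 x
    change (algebraMap ℂ (X →L[ℂ] X) z - ext M P φ β) (B x) = x
    have h2 : (algebraMap ℂ (X →L[ℂ] X) z - ext M P φ β) (B x) = z • B x - ext M P φ β (B x) := by
      simp [Algebra.algebraMap_eq_smul_one]
    obtain ⟨c, hc⟩ : ∃ c, c = (x + M φ (W x)) - P (x + M φ (W x)) := ⟨_, rfl⟩
    have hPc : P c = 0 := by rw [hc, map_sub, hPv, sub_self]
    have hBx : B x = W x + (z - β)⁻¹ • c := by rw [hBv, hc]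
    have hPB : P (B x) = W x := by rw [hBx, map_add, map_smul, hPc, smul_zero, add_zero, hPW]
    rw [h2, ext_apply h, hPB, hBx]
    have h3 : z • (W x + (z - β)⁻¹ • c) - (M φ (W x) + β • (W x + (z - β)⁻¹ • c - W x)) =
        z • W x - M φ (W x) + ((z - β) * (z - β)⁻¹) • c := by
      rw [add_sub_cancel_left, smul_add, smul_smul, smul_smul, sub_mul, sub_smul]
      abel
    rw [h3, mul_inv_cancel₀ hzβ, one_smul, hc, map_add]
    have h4 := w1 x
    have h5 : z • W x - M φ (W x) + (x + M φ (W x) - (P x + P (M φ (W x)))) =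
        (z • W x - P (M φ (W x))) - P x + x := by abel
    rw [h5, h4, sub_self, zero_add]
  have hB2 : B * (algebraMap ℂ (X →L[ℂ] X) z - ext M P φ β) = 1 := by
    ext1 x
    change B ((algebraMap ℂ (X →L[ℂ] X) z - ext M P φ β) x) = x
    have h2 : (algebraMap ℂ (X →L[ℂ] X) z - ext M P φ β) x = z • x - ext M P φ β x := by
      simp [Algebra.algebraMap_eq_smul_one]
    rw [h2, hBv, w2, ext_apply h]
    have h3 : z • x - (M φ (P x) + β • (x - P x)) + M φ (P x) = z • x - β • (x - P x) := by abel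
    rw [h3, map_sub, map_smul, map_smul, map_sub, hPv, sub_self, smul_zero, sub_zero]
    have h4 : z • x - β • (x - P x) - z • P x = (z - β) • (x - P x) := by
      rw [sub_smul, smul_sub, smul_sub]
      abel
    rw [h4, smul_smul, inv_mul_cancel₀ hzβ, one_smul]
    abel
  rw [spectrum.mem_resolventSet_iff]
  exact ⟨⟨_, B, hB1, hB2⟩, rfl⟩

end

end Pool.Agent.H43K
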