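import Pool.Agent.H43K.Toep

/-!
# Toeplitz operators: the three cases
-/

set_option autoImplicit false

open MeasureTheory AddCircle Set Filter Topology Metric
open scoped ENNReal NNReal
open Pool.Agent.Y283.TO Pool.Agent.R276.SI
open Pool.Agent.R276.NC.Fin (Nuc Kn tendsto_Kn fin_Kn)

namespace Pool.Agent.H43K

section

variable {Y : Type} [NormedAddCommGroup Y] [NormedSpace ℂ Y] [CompleteSpace Y]

/-- one-sided invertible, not invertible, with eigenvectors -/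
def Ind (T : Y →L[ℂ] Y) (z : ℂ) : Prop :=
  (∃ J : Y →L[ℂ] Y, (T - algebraMap ℂ (Y →L[ℂ] Y) z) * J = 1 ∧ ∃ y : Y, y ≠ 0 ∧ T y = z • y) ∨
  (∃ J : Y →L[ℂ] Y, J * (T - algebraMap ℂ (Y →L[ℂ] Y) z) = 1 ∧
    ∃ g : Y →L[ℂ] ℂ, g ≠ 0 ∧ g.comp T = z • g)

/-- the three cases -/
def Tri (T : Y →L[ℂ] Y) : Prop :=
  (∃ z, Ind T z) ∨ (∃ c : ℂ, T = c • (1 : Y →L[ℂ] Y)) ∨
  ∃ R : ℝ, volume (spectrum ℂ T ∩ ball 0 R) = 0 ∧
    IntegrableOn (fun z : ℂ => Real.posLog ‖resolvent T z‖) (ball 0 R) ∧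
    (Pool.Agent.Y271.CO.weyl T ∩ ball 0 R).Nonempty ∧ (Pool.Agent.Y271.CO.weyl T).Nontrivial

theorem meas_posLog (T : Y →L[ℂ] Y) :
    StronglyMeasurable fun z : ℂ => Real.posLog ‖resolvent T z‖ := by
  have hmeas : StronglyMeasurable fun z : ℂ => resolvent T z :=
    Pool.Agent.W610.HY.Fin.hMEAS (Y →L[ℂ] Y) T
  exact Real.continuous_posLog.comp_stronglyMeasurable hmeas.norm

theorem ind_lim (T K : Y →L[ℂ] Y) {z : ℂ} (h : Ind T z) (hK : K ∈ closure {F : Y →L[ℂ] Y | FR F}) :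
    (∃ c : ℂ, T + K = c • (1 : Y →L[ℂ] Y)) ∨ HasHyp (T + K) := by
  by_cases hs : ∃ c : ℂ, T + K = c • (1 : Y →L[ℂ] Y)
  · exact Or.inl hs
  right
  push Not at hs
  rcases h with ⟨J, hJ, hk⟩ | ⟨J, hJ, hk⟩
  · obtain ⟨x, hx, hxe⟩ := lim_right T J K z hJ hk hK
    exact hyp_of_eig _ hs z x hx hxe
  · obtain ⟨y, hy, hye⟩ := lim_left T J K z hJ hk hK
    exact hyp_of_coeig _ hs z y hy hye

theorem tri_fin (T : Y →L[ℂ] Y) (h : Tri T) (F : Y →L[ℂ] Y)
    (hF : FiniteDimensional ℂ (LinearMap.range (F : Y →ₗ[ℂ] Y))) :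
    dimH {κ : ℂ | ¬ ((∃ c : ℂ, T + κ • F = c • (1 : Y →L[ℂ] Y)) ∨ HasHyp (T + κ • F))} = 0 := by
  have hempty : (∀ κ : ℂ, (∃ c : ℂ, T + κ • F = c • (1 : Y →L[ℂ] Y)) ∨ HasHyp (T + κ • F)) →
      dimH {κ : ℂ | ¬ ((∃ c : ℂ, T + κ • F = c • (1 : Y →L[ℂ] Y)) ∨ HasHyp (T + κ • F))} = 0 := by
    intro hall
    have h0 : {κ : ℂ | ¬ ((∃ c : ℂ, T + κ • F = c • (1 : Y →L[ℂ] Y)) ∨ HasHyp (T + κ • F))} = ∅ :=
      Set.eq_empty_of_forall_notMem fun κ hκ => hκ (hall κ)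
    rw [h0, dimH_empty]
  rcases h with ⟨z, hz⟩ | ⟨c, hc⟩ | ⟨R, h0, hI, hw1, hw2⟩
  · exact hempty fun κ => ind_lim T (κ • F) hz
      (subset_closure (Pool.Agent.Y271.CO.range_smul_fin F hF κ))
  · refine hempty fun κ => ?_
    have h1 := const_case (1 : Y →L[ℂ] Y) (κ • F) (one_mul 1) c 0
      (Pool.Agent.Y271.CO.range_smul_fin F hF κ)
    rw [zero_smul, add_zero] at h1
    rw [hc]
    exact h1
  · have hfin := Pool.Agent.Y271.CO.main_weyl T F hF isOpen_ball h0 hI hw1 hw2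
    refine le_antisymm ((dimH_mono ?_).trans hfin.le) zero_le
    intro κ hκ hh
    exact hκ (Or.inr hh)

theorem tri_nuc (T : Y →L[ℂ] Y) (h : Tri T) :
    ∃ s : ℕ → ℝ, (∀ j, 0 < s j) ∧ ∀ (K : Y →L[ℂ] Y) (f : ℕ → (Y →L[ℂ] ℂ)) (x : ℕ → Y), Nuc K f x →
      (∀ j, ‖x j‖ ≤ s j) → ∀ m : Measure ℂ, Pool.Agent.R276.CP.LogBd m →
      ∀ᵐ κ ∂m, (∃ c : ℂ, T + κ • K = c • (1 : Y →L[ℂ] Y)) ∨ HasHyp (T + κ • K) := by
  rcases h with ⟨z, hz⟩ | ⟨c, hc⟩ | ⟨R, h0, hI, hw1, hw2⟩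
  · exact ⟨fun _ => 1, fun _ => one_pos, fun K f x hK _ m _ => ae_of_all _ fun κ =>
      ind_lim T (κ • K) hz (closure_of_nuc hK κ)⟩
  · refine ⟨fun _ => 1, fun _ => one_pos, fun K f x hK _ m _ => ae_of_all _ fun κ => ?_⟩
    have h1 := const_compact (1 : Y →L[ℂ] Y) (κ • K) (one_mul 1) c 0 ((compact_of_nuc hK).smul κ)
    rw [zero_smul, add_zero] at h1
    rw [hc]
    exact h1
  · have hmeas : StronglyMeasurable fun z : ℂ => resolvent T z :=
      Pool.Agent.W610.HY.Fin.hMEAS (Y →L[ℂ] Y) T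
    obtain ⟨s, hs1, hs2⟩ := rates (ρ := fun z => ‖resolvent T z‖) hmeas.norm.measurable
      (fun z => norm_nonneg _) (measure_ball_lt_top (μ := (volume : Measure ℂ))
        (x := (0 : ℂ)) (r := R)).ne hI
    refine ⟨s, hs1, fun K f x hK hx m hm => ?_⟩
    have hS : ∑' j, ∫⁻ z in ball (0 : ℂ) R,
        ENNReal.ofReal (Real.log (1 + ‖resolvent T z (x j)‖)) ≠ ⊤ := by
      refine ne_top_of_le_ne_top hs2 (ENNReal.tsum_le_tsum fun j => lintegral_mono fun z =>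
        ENNReal.ofReal_le_ofReal (Real.log_le_log (by positivity) ?_))
      have h1 : ‖resolvent T z (x j)‖ ≤ ‖resolvent T z‖ * s j :=
        ((resolvent T z).le_opNorm (x j)).trans
          (mul_le_mul_of_nonneg_left (hx j) (norm_nonneg _))
      linarith
    have h3 := Pool.Agent.R276.NC.Fin.hyper (Pool.Agent.R276.NC.Fat.main
      (Pool.Agent.R276.NC.Up.main Pool.Agent.R276.CP.Had.main)
      (Pool.Agent.R276.NC.Rs.main Pool.Agent.R276.CP.Had.main) Pool.Agent.R276.CP.Pot.main)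
      T K f x hK isOpen_ball h0 hI hS hw1 hw2 m hm
    filter_upwards [h3] with κ hκ
    exact Or.inr hκ

end

theorem HD_const (β : ℂ) (L q : ℝ) (hL : 0 < L) (hq : 0 ≤ q) : HD (rl (β • (1 : CT))) L q := by
  intro n s t _
  have h1 : rl (β • (1 : CT)) s - rl (β • (1 : CT)) t = 0 := by
    unfold rl
    simp
  rw [h1, norm_zero]
  positivity

section

variable {X : Type} [NormedAddCommGroup X] [NormedSpace ℂ X] [CompleteSpace X]
  {e : ℤ → X} {ε₀ : X →L[ℂ] ℂ} {M : CT → (X →L[ℂ] X)} {P : X →L[ℂ] X}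
  {T : hardy P →L[ℂ] hardy P} {φ : CT}

theorem ind_of (h : SIO e ε₀ M P) (hP : P * P = P)
    (hT : ∀ y : hardy P, ((T y : hardy P) : X) = P (M φ y)) (β z : ℂ) (hβ : β ≠ z) (k : ℤ)
    (c d : ℕ → ℂ) (w : CT) (hc : Summable fun n => ‖c n‖) (hd : Summable fun n => ‖d n‖) (hk : k ≠ 0)
    (hf : φ - algebraMap ℂ CT z =
      ((β • (1 : CT)) - algebraMap ℂ CT z) * fourier k * cexp (ps c) * cexp (psm d))
    (hw : ((β • (1 : CT)) - algebraMap ℂ CT z) * w = 1) [CompleteSpace (hardy P)] : Ind T z := by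
  obtain ⟨h1, h2⟩ := one_sided h φ (β • (1 : CT)) z k c d w hc hd hf hw
  rcases lt_or_gt_of_ne hk with hk' | hk'
  · left
    obtain ⟨J, hJ⟩ := h2 hk'.le
    exact ⟨_, right_tr h hP hT β z J hJ, eig_tr h hP hT β z hβ
      (Fin.eig Alg.main h φ (β • (1 : CT)) z k c d hc hd hk' hf)⟩
  · right
    obtain ⟨J, hJ⟩ := h1 hk'.le
    exact ⟨_, left_tr h hP hT β z hβ J hJ, coeig_tr h hP hT β z hβ
      (Fin.coeig Alg.main h φ (β • (1 : CT)) z k c d w hc hd hk' hf hw)⟩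

theorem toep_tri [CompleteSpace (hardy P)] (h : SIO e ε₀ M P) (hP : P * P = P)
    (hT : ∀ y : hardy P, ((T y : hardy P) : X) = P (M φ y)) (L q : ℝ) (hL : 0 < L) (hq : 1 / 2 ≤ q)
    (hq2 : 2 * q ^ 2 < 1) (hφ : HD (rl φ) L q) : Tri T := by
  have hq0 : 0 < q := by linarith
  obtain ⟨K, hK, hbd⟩ := h.bound
  obtain ⟨R, hR⟩ : ∃ R : ℝ, R = ‖φ‖ + 1 := ⟨_, rfl⟩
  have hR0 : 0 < R := by rw [hR]; positivity
  obtain ⟨β, hβd⟩ : ∃ β : ℂ, β = ((R + 1 : ℝ) : ℂ) := ⟨_, rfl⟩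
  have hβn : ‖β‖ = R + 1 := by
    rw [hβd, Complex.norm_real, Real.norm_of_nonneg (by linarith)]
  obtain ⟨b, hbd'⟩ : ∃ b : CT, b = β • (1 : CT) := ⟨_, rfl⟩
  have hbt : ∀ t, b t = β := by
    intro t
    rw [hbd']
    simp
  have hb : HD (rl b) L q := by
    rw [hbd']
    exact HD_const β L q hL hq0.le
  obtain ⟨C, hC, hfac⟩ := Fac.main φ b L q hL hq hq2 hφ hb R
  obtain ⟨D, hD⟩ : ∃ D : ℝ, D = Real.posLog (K ^ 3 * (‖P‖ + ‖(1 - P : X →L[ℂ] X)‖)) := ⟨_, rfl⟩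
  have hD0 : 0 ≤ D := hD ▸ Real.posLog_nonneg
  obtain ⟨A, hA⟩ : ∃ A, A = ext M P φ β := ⟨_, rfl⟩
  have hA' : (M φ * P + M b * (1 - P) : X →L[ℂ] X) = A := by
    rw [hA, hbd']
    rfl
  have hβz : ∀ z : ℂ, ‖z‖ ≤ R → β ≠ z := by
    rintro z hz rfl
    rw [hβn] at hz
    linarith
  by_cases hind : ∃ z, Ind T z
  · exact Or.inl hind
  right
  obtain ⟨E, hE⟩ : ∃ E : ℝ, E = Real.posLog (‖pr P hP‖ * ‖(hardy P).subtypeL‖) := ⟨_, rfl⟩
  have hE0 : 0 ≤ E := hE ▸ Real.posLog_nonneg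
  have key : ∀ z : ℂ, ‖z‖ ≤ R → (∀ t, φ t ≠ z) → z ∈ resolventSet ℂ T ∧
      ENNReal.ofReal (Real.posLog ‖resolvent T z‖) ≤
        ENNReal.ofReal (E + D) + 2 * (ENNReal.ofReal C * (HH φ L q z + HH b L q z)) := by
    intro z hzR hza
    have hβ := hβz z hzR
    obtain ⟨k, c, d, w, hc, hd, h1, h2, h3⟩ := hfac z hzR hza (fun t => by rw [hbt]; exact hβ)
    have hk : k = 0 := by
      by_contra hk
      rw [hbd'] at h1 h2
      exact hind ⟨z, ind_of h hP hT β z hβ k c d w hc hd hk h1 h2⟩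
    rw [hk] at h1
    obtain ⟨g1, g2⟩ := Fin.inv Alg.main h K hK hbd φ b z c d w hc hd h1 h2
    rw [hA', hA] at g1
    rw [hA', hA] at g2
    obtain ⟨r1, r2⟩ := res_tr h hP hT β z hβ g1
    refine ⟨r1, ?_⟩
    have hs : 0 ≤ ‖ps c‖ + ‖psm d‖ := by positivity
    have g3 : Real.posLog ‖resolvent T z‖ ≤
        (E + D) + 2 * (‖ps c‖ + ‖psm d‖ + Real.posLog ‖w‖) := by
      refine (Real.posLog_le_posLog (ContinuousLinearMap.opNorm_nonneg (resolvent T z)) r2).trans ?_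
      refine Real.posLog_mul.trans ?_
      rw [← hE, add_assoc]
      refine add_le_add le_rfl ((Real.posLog_le_posLog (norm_nonneg _) g2).trans ?_)
      refine Real.posLog_mul.trans ?_
      rw [← hD]
      refine add_le_add le_rfl (Real.posLog_mul.trans ?_)
      have g4 : Real.posLog (Real.exp (2 * (‖ps c‖ + ‖psm d‖))) =
          2 * (‖ps c‖ + ‖psm d‖) := by
        rw [Real.posLog, Real.log_exp]
        exact max_eq_right (by positivity)
      rw [g4]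
      have g5 : 0 ≤ Real.posLog ‖w‖ := Real.posLog_nonneg
      linarith
    refine (ENNReal.ofReal_le_ofReal g3).trans ?_
    have g6 : 0 ≤ ‖ps c‖ + ‖psm d‖ + Real.posLog ‖w‖ := by
      have g5 : 0 ≤ Real.posLog ‖w‖ := Real.posLog_nonneg
      positivity
    rw [ENNReal.ofReal_add (by positivity) (by positivity), ENNReal.ofReal_mul (by norm_num)]
    refine add_le_add le_rfl ?_
    rw [ENNReal.ofReal_ofNat]
    exact mul_le_mul' le_rfl h3
  by_cases hconst : ∃ c : ℂ, φ = c • (1 : CT)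
  · obtain ⟨c, hc⟩ := hconst
    refine Or.inl ⟨c, ?_⟩
    ext y
    rw [hT, hc, h.smul, h.one]
    change P (c • (y : X)) = c • (y : X)
    rw [map_smul, mem_hardy.1 y.2]
  right
  have hvol : volume (range φ) = 0 := volume_range φ L q hL hq0 hq2 hφ
  have hsr : spectrum ℂ T ∩ ball 0 R ⊆ range φ := by
    rintro z ⟨hz, hzR⟩
    by_contra hc
    exact hz (key z (mem_ball_zero_iff.1 hzR).le (fun t ht => hc ⟨t, ht⟩)).1
  have hsa : range φ ⊆ spectrum ℂ T ∩ ball 0 R := by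
    rintro _ ⟨t, rfl⟩
    have hn : ‖φ t‖ < R := by
      have := φ.norm_coe_le_norm t
      rw [hR]
      linarith
    refine ⟨fun hz => ?_, mem_ball_zero_iff.2 hn⟩
    have h1 := res_conv h hP hT β (φ t) (hβz _ hn.le) hz
    rw [← hA, ← hA'] at h1
    exact (Ess.main X e ε₀ M P h φ b (φ t) h1).1 t rfl
  have hS0 : volume (spectrum ℂ T ∩ ball 0 R) = 0 := measure_mono_null hsr hvol
  obtain ⟨hnt, hacc⟩ := acc_range φ hconst
  have hweyl : range φ ⊆ Pool.Agent.Y271.CO.weyl T ∩ ball 0 R := by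
    intro z hz
    exact ⟨Pool.Agent.Y271.CO.acc_weyl T isOpen_ball hS0 (hsa hz).2
      ((hacc z hz).mono (principal_mono.2 (hsa.trans inter_subset_left))), (hsa hz).2⟩
  have hI : IntegrableOn (fun z : ℂ => Real.posLog ‖resolvent T z‖) (ball 0 R) := by
    have hmm : StronglyMeasurable fun z : ℂ => Real.posLog ‖resolvent T z‖ := meas_posLog T
    refine ⟨hmm.aestronglyMeasurable, ?_⟩
    rw [hasFiniteIntegral_iff_ofReal (ae_of_all _ fun z => Real.posLog_nonneg)]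
    have h1 : ∀ᵐ z ∂((volume : Measure ℂ).restrict (ball 0 R)),
        ENNReal.ofReal (Real.posLog ‖resolvent T z‖) ≤
          ENNReal.ofReal (E + D) + 2 * (ENNReal.ofReal C * (HH φ L q z + HH b L q z)) := by
      have h2 : ∀ᵐ z ∂((volume : Measure ℂ).restrict (ball 0 R)), z ∉ range φ := by
        rw [ae_iff]
        simp only [not_not]
        exact le_antisymm ((Measure.restrict_apply_le _ _).trans hvol.le) bot_le
      filter_upwards [h2, ae_restrict_mem measurableSet_ball] with z hz1 hz2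
      exact (key z (mem_ball_zero_iff.1 hz2).le (fun t ht => hz1 ⟨t, ht⟩)).2
    refine (lintegral_mono_ae h1).trans_lt ?_
    rw [lintegral_add_left measurable_const, lintegral_const, Measure.restrict_apply_univ,
      lintegral_const_mul' _ _ (by norm_num), lintegral_const_mul' _ _ ENNReal.ofReal_ne_top,
      lintegral_add_left (measurable_HH φ L q)]
    refine ENNReal.add_lt_top.2 ⟨ENNReal.mul_lt_top ENNReal.ofReal_lt_top measure_ball_lt_top, ?_⟩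
    refine ENNReal.mul_lt_top (by norm_num) (ENNReal.mul_lt_top ENNReal.ofReal_lt_top
      (ENNReal.add_lt_top.2 ⟨?_, ?_⟩))
    · exact lt_top_iff_ne_top.mpr (lintegral_HH φ L q hL hq0 hq2 R)
    · exact lt_top_iff_ne_top.mpr (lintegral_HH b L q hL hq0 hq2 R)
  exact ⟨R, hS0, hI, hnt.nonempty.mono hweyl, (hnt.mono hweyl).mono inter_subset_left⟩

/-- nonzero winding number -/
theorem toep_ind [CompleteSpace (hardy P)] (h : SIO e ε₀ M P) (hP : P * P = P)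
    (hT : ∀ y : hardy P, ((T y : hardy P) : X) = P (M φ y)) (L q : ℝ) (hL : 0 < L) (hq : 1 / 2 ≤ q)
    (hq2 : 2 * q ^ 2 < 1) (hφ : HD (rl φ) L q) (z : ℂ) (k : ℤ) (g : CT) (hk : k ≠ 0)
    (hg : ∀ t, φ t - z = fourier k t * Complex.exp (g t)) : Ind T z := by
  have hq0 : 0 < q := by linarith
  obtain ⟨β, hβd⟩ : ∃ β : ℂ, β = z + 1 := ⟨_, rfl⟩
  have hβ : β ≠ z := by rw [hβd]; simp
  have haz : ∀ t, φ t ≠ z := by
    intro t ht
    have h1 := hg t
    rw [ht, sub_self] at h1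
    have h2 : (fourier k t : ℂ) ≠ 0 := by
      intro h0
      have := norm_fourier_apply k t
      rw [h0, norm_zero] at this
      exact zero_ne_one this
    exact mul_ne_zero h2 (Complex.exp_ne_zero _) h1.symm
  have hbt : ∀ t, (β • (1 : CT)) t = β := fun t => by simp
  obtain ⟨C, -, hfac⟩ := Fac.main φ (β • (1 : CT)) L q hL hq hq2 hφ (HD_const β L q hL hq0.le) ‖z‖
  obtain ⟨l, c, d, w, hc, hd, h1, h2, -⟩ := hfac z le_rfl haz (fun t => by rw [hbt]; exact hβ)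
  have hb1 : (β • (1 : CT)) - algebraMap ℂ CT z = 1 := by
    ext t
    have h4 : (algebraMap ℂ CT z) t = z := rfl
    rw [ContinuousMap.sub_apply, hbt, h4, hβd]
    simp
  have hkl : k = l := by
    refine winding_unique k l g (ps c + psm d) ?_
    have h3 := h1
    rw [hb1, one_mul] at h3
    ext t
    have h4 := congrArg (fun u : CT => u t) h3
    simp only [ContinuousMap.sub_apply, ContinuousMap.mul_apply, cexp_apply] at h4
    have h5 : (algebraMap ℂ CT z) t = z := rfl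
    rw [h5, hg t] at h4
    rw [ContinuousMap.mul_apply, ContinuousMap.mul_apply, cexp_apply, cexp_apply,
      ContinuousMap.add_apply, Complex.exp_add, h4]
    ring
  rw [← hkl] at h1
  exact ind_of h hP hT β z hβ k c d w hc hd hk h1 h2

end

end Pool.Agent.H43K
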